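import Pool.Agent.Lib.MP_64d474_lc.LS.Defs15

/-!
# Row TR: translations of the levels
-/

set_option autoImplicit false

namespace LS

open MvPolynomial AK

variable {F : Type*} [Field F] {n : ℕ}

theorem tc_X (c : Fin n → F) (i : Fin n) :
    (tc c (X i) : MvPolynomial (Fin n) F) = X i + C (c i) := by
  simp only [tc, aeval_X]

theorem tc_C (c : Fin n → F) (a : F) : (tc c (C a) : MvPolynomial (Fin n) F) = C a :=
  (tc c).commutes a

/-- Translations compose. -/
theorem tc_tc (c c' : Fin n → F) (f : MvPolynomial (Fin n) F) :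
    tc c (tc c' f) = tc (c + c') f := by
  have h : (tc c).comp (tc c') = tc (c + c') := by
    refine MvPolynomial.algHom_ext fun j => ?_
    rw [AlgHom.comp_apply, tc_X, map_add, tc_X, tc_C, tc_X, Pi.add_apply, map_add, add_assoc]
  exact congrArg (fun g => g f) h

theorem tc_zero (f : MvPolynomial (Fin n) F) : tc 0 f = f := by
  have h : tc (0 : Fin n → F) = AlgHom.id F _ := by
    refine MvPolynomial.algHom_ext fun j => ?_
    rw [tc_X, Pi.zero_apply, map_zero, add_zero, AlgHom.id_apply]
  rw [h, AlgHom.id_apply]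

theorem tc_injective (c : Fin n → F) :
    Function.Injective (tc c : MvPolynomial (Fin n) F → MvPolynomial (Fin n) F) := by
  have h2 : ∀ f, tc (-c) (tc c f) = f := fun f => by
    rw [tc_tc, neg_add_cancel, tc_zero]
  intro f g hfg
  rw [← h2 f, ← h2 g, hfg]

theorem tc_single (i : Fin n) (a : F) (f : MvPolynomial (Fin n) F) :
    tc (Pi.single i a) f = AK.DH.tr (Pi.single i 1) a f := by
  have h : tc (Pi.single i a) = AK.DH.tr (Pi.single i (1 : F)) a := by
    refine MvPolynomial.algHom_ext fun j => ?_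
    rw [tc_X]
    simp only [AK.DH.tr, aeval_X]
    congr 2
    by_cases hj : j = i
    · subst hj
      simp
    · rw [Pi.single_eq_of_ne hj, Pi.single_eq_of_ne hj, mul_zero]
  rw [h]

/-- One coordinate at a time. -/
theorem tc_induct {e : ℕ} (Q : ℕ → MvPolynomial (Fin n) F → Prop)
    (hmono : ∀ s s' f, s ≤ s' → Q s f → Q s' f)
    (hstep : ∀ s i a f, Q s f → Q ((e + 1) * s) (tc (Pi.single i a) f)) (m : ℕ) :
    ∀ (c : Fin n → F), (supp c).card ≤ m → ∀ s f, Q s f → Q ((e + 1) ^ m * s) (tc c f) := by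
  classical
  induction m with
  | zero =>
    intro c hc s f hf
    have h0 : c = 0 := by
      funext i
      by_contra hi
      have : i ∈ supp c := by simpa [supp] using hi
      have := Finset.card_pos.2 ⟨i, this⟩
      omega
    rw [h0, tc_zero, pow_zero, one_mul]
    exact hf
  | succ m ih =>
    intro c hc s f hf
    by_cases h0 : supp c = ∅
    · refine hmono _ _ _ ?_ (ih c (by rw [h0]; simp) s f hf)
      exact Nat.mul_le_mul_right _ (Nat.pow_le_pow_right (Nat.succ_pos e) (Nat.le_succ m))
    · obtain ⟨i, hi⟩ := Finset.nonempty_iff_ne_empty.2 h0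
      have hsub : supp (Function.update c i 0) ⊆ (supp c).erase i := by
        intro j hj
        rw [supp, Finset.mem_filter] at hj
        have hji : j ≠ i := by
          rintro rfl
          exact hj.2 (Function.update_self _ _ _)
        rw [Finset.mem_erase, supp, Finset.mem_filter]
        refine ⟨hji, Finset.mem_univ _, ?_⟩
        have := hj.2
        rwa [Function.update_of_ne hji] at this
      have hcard : (supp (Function.update c i 0)).card ≤ m := by
        have h1 := Finset.card_le_card hsub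
        rw [Finset.card_erase_of_mem hi] at h1
        omega
      have hc' : c = Pi.single i (c i) + Function.update c i 0 := by
        funext j
        rw [Pi.add_apply]
        by_cases hji : j = i
        · subst hji
          rw [Pi.single_eq_same, Function.update_self, add_zero]
        · rw [Pi.single_eq_of_ne hji, Function.update_of_ne hji, zero_add]
      have h2 := hstep _ i (c i) _ (ih _ hcard s f hf)
      rw [tc_tc, ← hc'] at h2
      rwa [pow_succ, mul_comm ((e + 1) ^ m) (e + 1), mul_assoc]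

theorem tc_degreeOf (c : Fin n → F) (j : Fin n) (f : MvPolynomial (Fin n) F) :
    (tc c f).degreeOf j ≤ f.degreeOf j :=
  tc_induct (e := 0) (fun _ g => g.degreeOf j ≤ f.degreeOf j) (fun _ _ _ _ h => h)
    (fun _ i a g h => by
      rw [tc_single]
      exact (AK.DH.tr_degreeOf i j a g).trans h) _ c le_rfl 0 f le_rfl

theorem tc_card {s e : ℕ} (m : ℕ) (c : Fin n → F) (hc : (supp c).card ≤ m)
    {f : MvPolynomial (Fin n) F} (hf : f.support.card ≤ s) (he : ∀ i, f.degreeOf i ≤ e) :
    (tc c f).support.card ≤ (e + 1) ^ m * s := by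
  have h := tc_induct (e := e) (fun s (g : MvPolynomial (Fin n) F) => g.support.card ≤ s ∧
    ∀ i, g.degreeOf i ≤ e) (fun s s' f hs h => ⟨h.1.trans hs, h.2⟩)
    (fun s i a g h => by
      rw [tc_single]
      refine ⟨(AK.DH.tr_card i a g (h.2 i)).trans ?_, fun j =>
        (AK.DH.tr_degreeOf i j a g).trans (h.2 j)⟩
      rw [mul_comm]
      exact Nat.mul_le_mul_left _ h.1) m c hc s f ⟨hf, he⟩
  exact h.1

theorem locSum_map {k : ℕ} {P P' : MvPolynomial (Fin n) F → Prop} (c : Fin n → F)
    (h : ∀ f, P f → P' (tc c f)) {f : MvPolynomial (Fin n) F} (hf : LocSum k P f) :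
    LocSum k P' (tc c f) := by
  classical
  obtain ⟨m, g, h1, h2, rfl⟩ := hf
  refine ⟨m, fun a => tc c (g a), fun a => DH.alg_map _ (tc_injective c) h (h1 a), fun i => ?_,
    map_sum _ _ _⟩
  refine le_trans (Finset.card_le_card ?_) (h2 i)
  intro a ha
  rw [Finset.mem_filter] at ha ⊢
  refine ⟨ha.1, fun h0 => ha.2 ?_⟩
  exact Nat.le_zero.1 ((tc_degreeOf c i (g a)).trans h0.le)

theorem algF_map {K : ℕ} {P P' : MvPolynomial (Fin n) F → Prop} (c : Fin n → F)
    (h : ∀ f, P f → P' (tc c f)) {G : Set (MvPolynomial (Fin n) F)} (hf : AlgF K P G) :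
    AlgF K P' (tc c '' G) := by
  obtain ⟨m, T, h1, h2, h3⟩ := hf
  refine ⟨m, fun j => tc c (T j), fun j => DH.isProdK_map _ h (h1 j), fun s hs => h2 s ?_, ?_⟩
  · exact (AlgHom.algebraicIndependent_iff (tc c) (tc_injective c)).1 hs
  · have h4 : Set.range (fun j => tc c (T j)) = tc c '' Set.range T := by
      rw [← Set.range_comp]; rfl
    rw [h4, ← AlgHom.map_adjoin]
    rintro _ ⟨f, hf, rfl⟩
    exact ⟨f, h3 hf, rfl⟩

theorem llev_tc {F : Type*} [Field F] {n s k e t : ℕ} (m : ℕ) (c : Fin n → F)
    (hc : (supp c).card ≤ m) {f : MvPolynomial (Fin n) F} (hf : LLev s k e t f) :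
    LLev ((e + 1) ^ m * s) k e t (tc c f) := by
  induction t generalizing f with
  | zero => exact ⟨tc_card m c hc hf.1 hf.2, fun j => (tc_degreeOf c j f).trans (hf.2 j)⟩
  | succ t ih =>
    exact ⟨locSum_map c (fun f hf => ih hf) hf.1, fun j => (tc_degreeOf c j f).trans (hf.2 j)⟩

theorem algF_tc {F : Type*} [Field F] {n s k e t K : ℕ} (m : ℕ) (c : Fin n → F)
    (hc : (supp c).card ≤ m) {G : Set (MvPolynomial (Fin n) F)} (hf : AlgF K (LLev s k e t) G) :
    AlgF K (LLev ((e + 1) ^ m * s) k e t) (tc c '' G) :=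
  algF_map c (fun _ hf => llev_tc m c hc hf) hf

theorem locSum_tc {F : Type*} [Field F] {n s k e t : ℕ} (m : ℕ) (c : Fin n → F)
    (hc : (supp c).card ≤ m) {f : MvPolynomial (Fin n) F} (hf : LocSum k (LLev s k e t) f) :
    LocSum k (LLev ((e + 1) ^ m * s) k e t) (tc c f) :=
  locSum_map c (fun _ hf => llev_tc m c hc hf) hf

end LS
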