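import Pool.Agent.Lib.MP_64d474_lc.LS.Defs15

/-!
# Lemma LOC: descent by translations
-/

set_option autoImplicit false

namespace LS.Loc93

open MvPolynomial

variable {F : Type*} [Field F] {n q : ℕ}

/-- translation `x ↦ x + c` -/
noncomputable def tr (c : Fin n → F) : MvPolynomial (Fin n) F →ₐ[F] MvPolynomial (Fin n) F :=
  MvPolynomial.aeval fun i => X i + C (c i)

theorem tr_tr (a c : Fin n → F) (f : MvPolynomial (Fin n) F) : tr a (tr c f) = tr (c + a) f := by
  have h : (tr a).comp (tr c) = tr (c + a) := by
    apply MvPolynomial.algHom_ext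
    intro i
    simp only [tr, AlgHom.comp_apply, aeval_X, map_add, Pi.add_apply, algHom_C]
    rw [MvPolynomial.algebraMap_eq]
    ring
  exact congrArg (fun g : MvPolynomial (Fin n) F →ₐ[F] MvPolynomial (Fin n) F => g f) h

theorem tr_zero (f : MvPolynomial (Fin n) F) : tr 0 f = f := by
  have h : tr (0 : Fin n → F) = AlgHom.id F _ := by
    apply MvPolynomial.algHom_ext
    intro i
    simp [tr]
  rw [h]
  rfl

theorem tr_injective (c : Fin n → F) : Function.Injective (tr c) := by
  intro f g h
  have h2 := congrArg (tr (-c)) h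
  rwa [tr_tr, tr_tr, add_neg_cancel, tr_zero, tr_zero] at h2

theorem eval_tr (x c : Fin n → F) (f : MvPolynomial (Fin n) F) :
    eval x (tr c f) = eval (x + c) f := by
  have h : (MvPolynomial.aeval x).comp (tr c) = (MvPolynomial.aeval (x + c) :
      MvPolynomial (Fin n) F →ₐ[F] F) := by
    apply MvPolynomial.algHom_ext
    intro i
    simp [tr]
  exact congrArg (fun g : MvPolynomial (Fin n) F →ₐ[F] F => g f) h

/-- translation of rational functions -/
noncomputable def tK (c : Fin n → F) : FractionRing (MvPolynomial (Fin n) F) →+*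
    FractionRing (MvPolynomial (Fin n) F) :=
  IsFractionRing.map (j := (tr c).toRingHom) (tr_injective c)

theorem tK_algebraMap (c : Fin n → F) (f : MvPolynomial (Fin n) F) :
    tK c (algebraMap _ (FractionRing (MvPolynomial (Fin n) F)) f) =
      algebraMap _ (FractionRing (MvPolynomial (Fin n) F)) (tr c f) := by
  unfold tK IsFractionRing.map
  rw [IsLocalization.map_eq]
  rfl

/-- rational functions fixed by all translations are constants -/
theorem fixed_mem [Infinite F] (f : FractionRing (MvPolynomial (Fin n) F))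
    (hf : ∀ a, tK a f = f) :
    ∃ ω : F, f = algebraMap (MvPolynomial (Fin n) F) _ (C ω) := by
  obtain ⟨u, v, hv, rfl⟩ := IsFractionRing.div_surjective (A := MvPolynomial (Fin n) F) f
  have hv0 : v ≠ 0 := nonZeroDivisors.ne_zero hv
  obtain ⟨x0, hx0⟩ : ∃ x0, eval x0 v ≠ 0 := by
    by_contra h
    push Not at h
    exact hv0 (MvPolynomial.funext fun x => by rw [h x, map_zero])
  have hinj := IsFractionRing.injective (MvPolynomial (Fin n) F)
    (FractionRing (MvPolynomial (Fin n) F))
  have hne : ∀ w : MvPolynomial (Fin n) F, w ≠ 0 →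
      algebraMap _ (FractionRing (MvPolynomial (Fin n) F)) w ≠ 0 := by
    intro w hw h
    exact hw (hinj (by rw [h, map_zero]))
  have hid : ∀ a, tr a u * v = u * tr a v := by
    intro a
    have h := hf a
    rw [map_div₀, tK_algebraMap, tK_algebraMap, div_eq_div_iff] at h
    · rw [← map_mul, ← map_mul] at h
      exact hinj h
    · exact hne _ fun h0 => hv0 (tr_injective a (by rw [h0, map_zero]))
    · exact hne _ hv0
  have hpoly : u * C (eval x0 v) = C (eval x0 u) * v := by
    apply MvPolynomial.funext
    intro y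
    have h := congrArg (eval x0) (hid (y - x0))
    rw [map_mul, map_mul, eval_tr, eval_tr, add_sub_cancel] at h
    rw [map_mul, map_mul, eval_C, eval_C, h]
  refine ⟨eval x0 u / eval x0 v, ?_⟩
  rw [div_eq_iff (hne _ hv0), ← map_mul]
  congr 1
  have h2 : (C (eval x0 u / eval x0 v) : MvPolynomial (Fin n) F) * C (eval x0 v) =
      C (eval x0 u) := by
    rw [← map_mul, div_mul_cancel₀ _ hx0]
  have h3 : (C (eval x0 v) : MvPolynomial (Fin n) F) ≠ 0 := by
    rw [Ne, MvPolynomial.C_eq_zero]
    exact hx0
  apply mul_right_cancel₀ h3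
  rw [hpoly, ← h2]
  ring

/-- descent: minimal support -/
theorem exists_fixed (W : Submodule (FractionRing (MvPolynomial (Fin n) F))
      (MvPolynomial (Fin q) (FractionRing (MvPolynomial (Fin n) F))))
    (hW : ∀ a : Fin n → F, ∀ w ∈ W, MvPolynomial.map (tK a) w ∈ W)
    (w0 : MvPolynomial (Fin q) (FractionRing (MvPolynomial (Fin n) F))) (hw0 : w0 ∈ W)
    (h0 : coeff 0 w0 ≠ 0) :
    ∃ w ∈ W, coeff 0 w = 1 ∧ ∀ a : Fin n → F, MvPolynomial.map (tK a) w = w := by
  classical
  have hex : ∃ k : ℕ, ∃ w ∈ W, coeff 0 w = 1 ∧ w.support.card = k := by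
    refine ⟨_, (coeff 0 w0)⁻¹ • w0, W.smul_mem _ hw0, ?_, rfl⟩
    rw [coeff_smul, smul_eq_mul, inv_mul_cancel₀ h0]
  obtain ⟨w, hwW, hw1, hwk⟩ := Nat.find_spec hex
  refine ⟨w, hwW, hw1, fun a => ?_⟩
  by_contra hne
  set d := MvPolynomial.map (tK a) w - w with hd
  have hdW : d ∈ W := W.sub_mem (hW a w hwW) hwW
  have hd0 : d ≠ 0 := sub_ne_zero.2 hne
  obtain ⟨m, hm⟩ : ∃ m, coeff m d ≠ 0 := by
    by_contra h
    push Not at h
    exact hd0 (MvPolynomial.ext _ _ fun m => by rw [h m, coeff_zero])
  have hdc : ∀ m', coeff m' w = 0 → coeff m' d = 0 := by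
    intro m' h
    rw [hd, coeff_sub, coeff_map, h, map_zero, sub_zero]
  have hd00 : coeff 0 d = 0 := by
    rw [hd, coeff_sub, coeff_map, hw1, map_one, sub_self]
  have hmw : coeff m w ≠ 0 := fun h => hm (hdc m h)
  set w' := w - (coeff m w / coeff m d) • d with hw'
  have hw'W : w' ∈ W := W.sub_mem hwW (W.smul_mem _ hdW)
  have hw'1 : coeff 0 w' = 1 := by
    rw [hw', coeff_sub, coeff_smul, hd00, smul_zero, sub_zero, hw1]
  have hlt : w'.support.card < w.support.card := by
    apply Finset.card_lt_card
    rw [Finset.ssubset_iff_of_subset]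
    · refine ⟨m, MvPolynomial.mem_support_iff.2 hmw, ?_⟩
      rw [MvPolynomial.mem_support_iff, not_not, hw', coeff_sub, coeff_smul, smul_eq_mul,
        div_mul_cancel₀ _ hm, sub_self]
    · intro m' hm'
      rw [MvPolynomial.mem_support_iff] at hm' ⊢
      intro h
      apply hm'
      rw [hw', coeff_sub, coeff_smul, h, hdc m' h, smul_zero, sub_zero]
  exact Nat.find_min hex (m := w'.support.card) (by rw [← hwk]; exact hlt)
    ⟨w', hw'W, hw'1, rfl⟩

/-- a nonzero minor -/
theorem exists_minor {K ι : Type*} [Field K] {r : ℕ} (f : Fin r → ι → K)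
    (hf : LinearIndependent K f) :
    ∃ e : Fin r → ι, (Matrix.of fun k l => f l (e k)).det ≠ 0 := by
  classical
  set ev : ι → Fin r → K := fun i l => f l i with hev
  have hspan : Submodule.span K (Set.range ev) = ⊤ := by
    by_contra hne
    have hlt : Submodule.span K (Set.range ev) < ⊤ := lt_top_iff_ne_top.2 hne
    obtain ⟨g, hg, hgk⟩ := Submodule.exists_le_ker_of_lt_top _ hlt
    have hgv : ∀ v : Fin r → K, g v = ∑ l, g (Pi.single l 1) * v l := by
      intro v
      conv_lhs => rw [← Finset.univ_sum_single v]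
      rw [map_sum]
      apply Finset.sum_congr rfl
      intro l _
      have : (Pi.single l (v l) : Fin r → K) = v l • Pi.single l 1 := by
        rw [← Pi.single_smul, smul_eq_mul, mul_one]
      rw [this, map_smul, smul_eq_mul, mul_comm]
    have hz : ∑ l, g (Pi.single l 1) • f l = 0 := by
      funext i
      rw [Finset.sum_apply]
      have h1 : g (ev i) = 0 := hgk (Submodule.subset_span ⟨i, rfl⟩)
      rw [hgv] at h1
      simpa using h1
    have hall := (Fintype.linearIndependent_iff.1 hf) _ hz
    apply hg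
    ext v
    simp [hall]
  obtain ⟨bs, hbs, hbspan, hbli⟩ := exists_linearIndependent K (Set.range ev)
  rw [hspan] at hbspan
  let B : Module.Basis bs K (Fin r → K) := Module.Basis.mk hbli (by
    rw [Subtype.range_coe, hbspan])
  have hfin : Finite bs := Module.Finite.finite_basis B
  have hcard : Nat.card bs = r := by
    have := Module.finrank_eq_nat_card_basis B
    rw [Module.finrank_fin_fun] at this
    exact this.symm
  let eq : Fin r ≃ bs := (Finite.equivFinOfCardEq hcard).symm
  choose e he using fun k : Fin r => hbs (eq k).2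
  refine ⟨e, ?_⟩
  have hli : LinearIndependent K (Matrix.of fun k l => f l (e k) : Matrix (Fin r) (Fin r) K).row := by
    have h1 : LinearIndependent K fun k : Fin r => ((eq k : bs) : Fin r → K) :=
      hbli.comp eq eq.injective
    have h2 : (Matrix.of fun k l => f l (e k) : Matrix (Fin r) (Fin r) K).row =
        fun k : Fin r => ((eq k : bs) : Fin r → K) := by
      funext k
      rw [← he k]
      rfl
    rw [h2]
    exact h1
  have := Matrix.linearIndependent_rows_iff_isUnit.1 hli
  exact ((Matrix.isUnit_iff_isUnit_det _).1 this).ne_zero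

/-! ### The two polynomials -/

/-- `P(x + c, b(x + c) + η)` -/
noncomputable def pR (b : Fin q → MvPolynomial (Fin n) F)
    (P : MvPolynomial (Fin q) (MvPolynomial (Fin n) F)) (c : Fin n → F) :
    MvPolynomial (Fin q) (MvPolynomial (Fin n) F) :=
  bind₁ (fun j => X j + C (tr c (b j))) (MvPolynomial.map (tr c).toRingHom P)

/-- `P(x + c, y + b(x + c) - b(x))` -/
noncomputable def QR (b : Fin q → MvPolynomial (Fin n) F)
    (P : MvPolynomial (Fin q) (MvPolynomial (Fin n) F)) (c : Fin n → F) :
    MvPolynomial (Fin q) (MvPolynomial (Fin n) F) :=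
  bind₁ (fun j => X j + C (tr c (b j) - b j)) (MvPolynomial.map (tr c).toRingHom P)

theorem map_pR (b : Fin q → MvPolynomial (Fin n) F)
    (P : MvPolynomial (Fin q) (MvPolynomial (Fin n) F)) (a c : Fin n → F) :
    MvPolynomial.map (tr a).toRingHom (pR b P c) = pR b P (c + a) := by
  have h1 : ((tr a).toRingHom.comp (tr c).toRingHom :
      MvPolynomial (Fin n) F →+* MvPolynomial (Fin n) F) = (tr (c + a)).toRingHom :=
    RingHom.ext (tr_tr a c)
  have h2 : (fun j : Fin q => MvPolynomial.map (tr a).toRingHom
      (X j + C (tr c (b j)) : MvPolynomial (Fin q) (MvPolynomial (Fin n) F))) =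
      fun j => X j + C (tr (c + a) (b j)) := by
    funext j
    rw [map_add, MvPolynomial.map_X, MvPolynomial.map_C]
    have h3 : (tr a).toRingHom (tr c (b j)) = tr (c + a) (b j) := tr_tr a c (b j)
    rw [h3]
  unfold pR
  rw [MvPolynomial.map_bind₁, MvPolynomial.map_map, h1, h2]

theorem coeff_zero_pR (b : Fin q → MvPolynomial (Fin n) F)
    (P : MvPolynomial (Fin q) (MvPolynomial (Fin n) F)) (c : Fin n → F) :
    coeff 0 (pR b P c) = tr c (eval b P) := by
  have h : (constantCoeff.comp
      ((bind₁ (fun j => X j + C (tr c (b j))) :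
        MvPolynomial (Fin q) (MvPolynomial (Fin n) F) →ₐ[MvPolynomial (Fin n) F]
          MvPolynomial (Fin q) (MvPolynomial (Fin n) F)).toRingHom.comp
        (MvPolynomial.map (tr c).toRingHom))) = (tr c).toRingHom.comp (eval b) := by
    apply MvPolynomial.ringHom_ext
    · intro r
      simp
    · intro i
      simp
  exact congrArg (fun g : MvPolynomial (Fin q) (MvPolynomial (Fin n) F) →+*
    MvPolynomial (Fin n) F => g P) h

theorem bind_pR (b : Fin q → MvPolynomial (Fin n) F)
    (P : MvPolynomial (Fin q) (MvPolynomial (Fin n) F)) (c : Fin n → F) :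
    bind₁ (fun j => X j - C (b j)) (pR b P c) = QR b P c := by
  unfold pR QR
  rw [← AlgHom.comp_apply, MvPolynomial.bind₁_comp_bind₁]
  congr 2
  funext j
  simp only [map_add, MvPolynomial.bind₁_X_right, map_sub]
  rw [MvPolynomial.bind₁_C_right]
  ring

theorem degreeOf_bind {R : Type*} [CommRing R] [Nontrivial R] (d : Fin q → R) (φ : MvPolynomial (Fin q) R)
    (j : Fin q) : (bind₁ (fun j => X j + C (d j)) φ).degreeOf j ≤ φ.degreeOf j := by
  classical
  conv_lhs => rw [φ.as_sum]
  rw [map_sum]
  refine (MvPolynomial.degreeOf_sum_le j _ _).trans ?_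
  rw [Finset.sup_le_iff]
  intro m hm
  rw [MvPolynomial.bind₁_monomial]
  refine (MvPolynomial.degreeOf_mul_le j _ _).trans ?_
  rw [MvPolynomial.degreeOf_C, zero_add]
  refine (MvPolynomial.degreeOf_prod_le j _ _).trans ?_
  have h1 : ∀ i ∈ m.support, ((X i + C (d i) : MvPolynomial (Fin q) R) ^ m i).degreeOf j ≤
      if i = j then m j else 0 := by
    intro i _
    refine (MvPolynomial.degreeOf_pow_le j _ _).trans ?_
    have h2 : (X i + C (d i) : MvPolynomial (Fin q) R).degreeOf j ≤ if i = j then 1 else 0 := by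
      refine (MvPolynomial.degreeOf_add_le j _ _).trans ?_
      rw [MvPolynomial.degreeOf_C, MvPolynomial.degreeOf_X]
      simp [eq_comm]
    split_ifs with h
    · subst h
      rw [if_pos rfl] at h2
      calc m i * _ ≤ m i * 1 := Nat.mul_le_mul_left _ h2
        _ = m i := mul_one _
    · rw [if_neg h] at h2
      rw [Nat.le_zero.1 h2, mul_zero]
  refine (Finset.sum_le_sum h1).trans ?_
  rw [Finset.sum_ite_eq' m.support j fun _ => m j]
  split_ifs
  · exact MvPolynomial.monomial_le_degreeOf j hm
  · exact Nat.zero_le _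

/-! ### Dimension and the stable span -/

/-- a space of polynomials of degree `≤ M` in each variable -/
theorem finrank_le {K : Type*} [Field K] (M : ℕ) (W : Submodule K (MvPolynomial (Fin q) K))
    (hW : ∀ w ∈ W, ∀ m ∈ w.support, ∀ j, m j ≤ M) :
    Module.Finite K W ∧ Module.finrank K W ≤ (M + 1) ^ q := by
  classical
  let L : MvPolynomial (Fin q) K →ₗ[K] ((Fin q → Fin (M + 1)) → K) :=
    LinearMap.pi fun α =>
      MvPolynomial.lcoeff K (Finsupp.equivFunOnFinite.symm fun j => (α j : ℕ))
  have hL : ∀ f α, L f α = coeff (Finsupp.equivFunOnFinite.symm fun j => (α j : ℕ)) f :=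
    fun f α => rfl
  have hinj : Function.Injective (L.domRestrict W) := by
    rw [injective_iff_map_eq_zero]
    rintro ⟨f, hf⟩ h0
    apply Subtype.ext
    change f = 0
    ext m
    rw [coeff_zero]
    by_contra hm
    have hm' : m ∈ f.support := MvPolynomial.mem_support_iff.2 hm
    have h1 := congrFun h0 fun j => (⟨m j, Nat.lt_succ_of_le (hW f hf m hm' j)⟩ : Fin (M + 1))
    apply hm
    have h2 : (Finsupp.equivFunOnFinite.symm fun j =>
        ((⟨m j, Nat.lt_succ_of_le (hW f hf m hm' j)⟩ : Fin (M + 1)) : ℕ)) = m := by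
      ext j
      simp
    rw [← h2]
    exact h1
  have hfin : Module.Finite K W := Module.Finite.of_injective _ hinj
  refine ⟨hfin, ?_⟩
  have := LinearMap.finrank_le_finrank_of_injective hinj
  rw [Module.finrank_fintype_fun_eq_card, Fintype.card_fun, Fintype.card_fin, Fintype.card_fin]
    at this
  exact this

theorem map_smul_tK (a : Fin n → F) (k : FractionRing (MvPolynomial (Fin n) F))
    (x : MvPolynomial (Fin q) (FractionRing (MvPolynomial (Fin n) F))) :
    MvPolynomial.map (tK a) (k • x) = tK a k • MvPolynomial.map (tK a) x := by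
  rw [MvPolynomial.smul_eq_C_mul, MvPolynomial.smul_eq_C_mul, map_mul, MvPolynomial.map_C]

open Classical in
/-- the nonzero coordinates -/
noncomputable def sp (c : Fin n → F) : Finset (Fin n) := Finset.univ.filter fun i => c i ≠ 0

/-- a stable span, spanned by few translations with few nonzero coordinates -/
theorem exists_stable (M : ℕ)
    (p : (Fin n → F) → MvPolynomial (Fin q) (FractionRing (MvPolynomial (Fin n) F)))
    (hp : ∀ c, ∀ m ∈ (p c).support, ∀ j, m j ≤ M)
    (hT : ∀ a c, MvPolynomial.map (tK a) (p c) = p (c + a)) :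
    ∃ (r : ℕ) (c : Fin r → Fin n → F), r ≤ (M + 1) ^ q ∧
      (∀ l, (sp (c l)).card ≤ (M + 1) ^ q) ∧
      LinearIndependent (FractionRing (MvPolynomial (Fin n) F)) (fun l => p (c l)) ∧
      ∀ a, p a ∈ Submodule.span (FractionRing (MvPolynomial (Fin n) F))
        (Set.range fun l => p (c l)) := by
  classical
  set K := FractionRing (MvPolynomial (Fin n) F) with hK
  set W : ℕ → Submodule K (MvPolynomial (Fin q) K) := fun k =>
    Submodule.span K (p '' {c | (sp c).card ≤ k}) with hWdef
  have hdeg : ∀ k, ∀ w ∈ W k, ∀ m ∈ w.support, ∀ j, m j ≤ M := by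
    intro k w hw
    induction hw using Submodule.span_induction with
    | mem x h =>
      obtain ⟨c, _, rfl⟩ := h
      exact hp c
    | zero => simp
    | add x y _ _ hx hy =>
      intro m hm j
      rcases Finset.mem_union.1 (MvPolynomial.support_add hm) with h | h
      · exact hx m h j
      · exact hy m h j
    | smul k x _ hx =>
      intro m hm j
      exact hx m (MvPolynomial.support_smul hm) j
  have hmono : ∀ k, W k ≤ W (k + 1) := by
    intro k
    apply Submodule.span_mono
    apply Set.image_mono
    intro c hc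
    exact Nat.le_succ_of_le hc
  have hmono' : ∀ k l, k ≤ l → W k ≤ W l := fun k l h => monotone_nat_of_le_succ hmono h
  have hfr : ∀ k, Module.Finite K (W k) ∧ Module.finrank K (W k) ≤ (M + 1) ^ q :=
    fun k => finrank_le M (W k) (hdeg k)
  obtain ⟨m, hmN, hm⟩ : ∃ m ≤ (M + 1) ^ q, W m = W (m + 1) := by
    by_contra hcon
    push Not at hcon
    have hge : ∀ k ≤ (M + 1) ^ q + 1, k ≤ Module.finrank K (W k) := by
      intro k
      induction k with
      | zero => exact fun _ => Nat.zero_le _
      | succ k ih =>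
        intro hk
        have h1 := ih (by omega)
        have hlt : W k < W (k + 1) := lt_of_le_of_ne (hmono k) (hcon k (by omega))
        have := (hfr (k + 1)).1
        have h2 := Submodule.finrank_lt_finrank_of_lt hlt
        omega
    have h1 := hge _ le_rfl
    have h2 := (hfr ((M + 1) ^ q + 1)).2
    omega
  have hstep : ∀ (i : Fin n) (s : F), ∀ w ∈ W m,
      MvPolynomial.map (tK (Pi.single i s)) w ∈ W m := by
    intro i s w hw
    rw [hm]
    induction hw using Submodule.span_induction with
    | mem x h =>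
      obtain ⟨c, hc, rfl⟩ := h
      rw [hT]
      apply Submodule.subset_span
      refine ⟨_, ?_, rfl⟩
      have h1 : sp (c + Pi.single i s) ⊆ insert i (sp c) := by
        intro j hj
        rw [sp, Finset.mem_filter] at hj
        by_cases hji : j = i
        · exact Finset.mem_insert.2 (Or.inl hji)
        · apply Finset.mem_insert_of_mem
          rw [sp, Finset.mem_filter]
          refine ⟨Finset.mem_univ _, ?_⟩
          have := hj.2
          rwa [Pi.add_apply, Pi.single_eq_of_ne hji, add_zero] at this
      have h2 := Finset.card_le_card h1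
      have h3 := Finset.card_insert_le i (sp c)
      have h4 : (sp c).card ≤ m := hc
      change (sp (c + Pi.single i s)).card ≤ m + 1
      omega
    | zero =>
      rw [map_zero]
      exact Submodule.zero_mem _
    | add x y _ _ hx hy =>
      rw [map_add]
      exact Submodule.add_mem _ hx hy
    | smul k x _ hx =>
      rw [map_smul_tK]
      exact Submodule.smul_mem _ _ hx
  have hall : ∀ k, ∀ c, (sp c).card ≤ k → p c ∈ W m := by
    intro k
    induction k with
    | zero =>
      intro c hc
      exact hmono' 0 m (Nat.zero_le _) (Submodule.subset_span ⟨c, hc, rfl⟩)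
    | succ k ih =>
      intro c hc
      by_cases hc' : (sp c).card ≤ k
      · exact ih c hc'
      obtain ⟨i, hi⟩ : (sp c).Nonempty := by
        rw [← Finset.card_pos]
        omega
      have hcc : c = Function.update c i 0 + Pi.single i (c i) := by
        funext j
        by_cases hj : j = i
        · subst hj
          simp
        · simp [hj]
      have h1 : sp (Function.update c i 0) ⊆ (sp c).erase i := by
        intro j hj
        rw [sp, Finset.mem_filter] at hj
        have hji : j ≠ i := by
          rintro rfl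
          exact hj.2 (by simp)
        rw [Finset.mem_erase, sp, Finset.mem_filter]
        refine ⟨hji, Finset.mem_univ _, ?_⟩
        have := hj.2
        rwa [Function.update_of_ne hji] at this
      have h2 := Finset.card_le_card h1
      rw [Finset.card_erase_of_mem hi] at h2
      have h3 := hstep i (c i) _ (ih (Function.update c i 0) (by omega))
      rw [hT, ← hcc] at h3
      exact h3
  -- a basis of `W m`
  obtain ⟨bs, hbs, hspan, hli⟩ := exists_linearIndependent K (p '' {c | (sp c).card ≤ m})
  have := (hfr m).1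
  have hBr : Submodule.span K (Set.range ((↑) : bs → MvPolynomial (Fin q) K)) = W m := by
    rw [Subtype.range_coe, hspan]
  let B : Module.Basis bs K (W m) := Module.Basis.span hli |>.map
    (LinearEquiv.ofEq _ _ hBr)
  have hfin : Finite bs := Module.Finite.finite_basis B
  have hcard : Nat.card bs ≤ (M + 1) ^ q := by
    rw [← Module.finrank_eq_nat_card_basis B]
    exact (hfr m).2
  let eq : Fin (Nat.card bs) ≃ bs := (Finite.equivFin bs).symm
  choose c hc hpc using fun l : Fin (Nat.card bs) => hbs (eq l).2
  refine ⟨Nat.card bs, c, hcard, fun l => le_trans (hc l) hmN, ?_, ?_⟩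
  · have h1 : (fun l => p (c l)) = fun l => ((eq l : bs) : MvPolynomial (Fin q) K) := funext hpc
    rw [h1]
    exact hli.comp eq eq.injective
  · intro a
    have h1 : (Set.range fun l => p (c l)) = bs := by
      ext x
      constructor
      · rintro ⟨l, rfl⟩
        change p (c l) ∈ bs
        rw [hpc l]
        exact (eq l).2
      · intro hx
        refine ⟨eq.symm ⟨x, hx⟩, ?_⟩
        change p (c (eq.symm ⟨x, hx⟩)) = x
        rw [hpc, Equiv.apply_symm_apply]
    rw [h1, hspan]
    exact hall _ a le_rfl

/-! ### Coefficients in a subring -/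

theorem coeff_bind_mem {R : Type*} [CommRing R] (S : Subring R) (d : Fin q → R)
    (hd : ∀ j, d j ∈ S) (φ : MvPolynomial (Fin q) R) (hφ : ∀ m, coeff m φ ∈ S) (m : Fin q →₀ ℕ) :
    coeff m (bind₁ (fun j => X j + C (d j)) φ) ∈ S := by
  have hT : bind₁ (fun j => X j + C (d j)) φ ∈
      (MvPolynomial.map S.subtype : MvPolynomial (Fin q) S →+* MvPolynomial (Fin q) R).range := by
    rw [φ.as_sum, map_sum]
    apply Subring.sum_mem
    intro μ _
    rw [MvPolynomial.bind₁_monomial]
    apply Subring.mul_mem
    · exact ⟨C ⟨_, hφ μ⟩, by rw [MvPolynomial.map_C]; rfl⟩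
    · apply Subring.prod_mem
      intro i _
      apply Subring.pow_mem
      apply Subring.add_mem
      · exact ⟨X i, by rw [MvPolynomial.map_X]⟩
      · exact ⟨C ⟨_, hd i⟩, by rw [MvPolynomial.map_C]; rfl⟩
  obtain ⟨g, hg⟩ := hT
  rw [← hg, MvPolynomial.coeff_map]
  exact (coeff m g).2

/-- coefficients as a linear map -/
noncomputable def co (K : Type*) [Field K] (q : ℕ) :
    MvPolynomial (Fin q) K →ₗ[K] ((Fin q →₀ ℕ) → K) :=
  LinearMap.pi fun m => MvPolynomial.lcoeff K m

theorem co_ker (K : Type*) [Field K] (q : ℕ) : LinearMap.ker (co K q) = ⊥ := by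
  rw [LinearMap.ker_eq_bot']
  intro f hf
  ext m
  exact congrFun hf m

theorem bind_ker {K : Type*} [Field K] (β : Fin q → K) :
    LinearMap.ker (bind₁ (fun j => X j - C (β j)) :
      MvPolynomial (Fin q) K →ₐ[K] MvPolynomial (Fin q) K).toLinearMap = ⊥ := by
  rw [LinearMap.ker_eq_bot]
  have h : Function.LeftInverse (bind₁ (fun j => X j + C (β j)) :
      MvPolynomial (Fin q) K →ₐ[K] MvPolynomial (Fin q) K)
      (bind₁ (fun j => X j - C (β j)) :
      MvPolynomial (Fin q) K →ₐ[K] MvPolynomial (Fin q) K) := by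
    intro f
    rw [← AlgHom.comp_apply, MvPolynomial.bind₁_comp_bind₁]
    have h1 : (fun j : Fin q => bind₁ (fun j => X j + C (β j))
        (X j - C (β j) : MvPolynomial (Fin q) K)) = X := by
      funext j
      rw [map_sub, MvPolynomial.bind₁_X_right, MvPolynomial.bind₁_C_right]
      ring
    rw [h1]
    exact congrArg (fun g : MvPolynomial (Fin q) K →ₐ[K] MvPolynomial (Fin q) K => g f)
      MvPolynomial.bind₁_X_left
  exact h.injective

theorem main [Infinite F] {M : ℕ} (b : Fin q → MvPolynomial (Fin n) F)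
    (P : MvPolynomial (Fin q) (MvPolynomial (Fin n) F))
    (hM : ∀ μ ∈ P.support, ∀ j, μ j ≤ M) (h0 : eval b P ≠ 0) :
    ∃ (r : ℕ) (c : Fin r → Fin n → F) (D : MvPolynomial (Fin n) F)
      (A : Fin r → MvPolynomial (Fin n) F), r ≤ (M + 1) ^ q ∧
      (∀ l, (sp (c l)).card ≤ (M + 1) ^ q) ∧ D ≠ 0 ∧
      D ∈ Algebra.adjoin F ({g | ∃ l μ, g = tr (c l) (coeff μ P)} ∪
        {g | ∃ l j, g = tr (c l) (b j) - b j}) ∧
      D = ∑ l, A l * tr (c l) (eval b P) := by
  classical
  set K := FractionRing (MvPolynomial (Fin n) F) with hK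
  set ι : MvPolynomial (Fin n) F →+* K := algebraMap (MvPolynomial (Fin n) F) K with hι
  have hinj : Function.Injective ι := IsFractionRing.injective (MvPolynomial (Fin n) F) K
  set p : (Fin n → F) → MvPolynomial (Fin q) K := fun c => MvPolynomial.map ι (pR b P c) with hp
  have hdeg : ∀ c, ∀ m ∈ (p c).support, ∀ j, m j ≤ M := by
    intro c m hm j
    have h1 : m ∈ (pR b P c).support := MvPolynomial.support_map_subset _ _ hm
    refine (MvPolynomial.monomial_le_degreeOf j h1).trans ?_
    refine (degreeOf_bind _ _ j).trans ?_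
    rw [MvPolynomial.degreeOf_le_iff]
    intro μ hμ
    exact hM μ (MvPolynomial.support_map_subset _ _ hμ) j
  have hT : ∀ a c, MvPolynomial.map (tK a) (p c) = p (c + a) := by
    intro a c
    have h1 : (tK a).comp ι = ι.comp (tr a).toRingHom := RingHom.ext (tK_algebraMap a)
    rw [hp]
    simp only
    rw [MvPolynomial.map_map, h1, ← MvPolynomial.map_map, map_pR]
  obtain ⟨r, c, hr, hc, hli, hspan⟩ := exists_stable M p hdeg hT
  set W : Submodule K (MvPolynomial (Fin q) K) :=
    Submodule.span K (Set.range fun l => p (c l)) with hW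
  have hstab : ∀ a : Fin n → F, ∀ w ∈ W, MvPolynomial.map (tK a) w ∈ W := by
    intro a w hw
    induction hw using Submodule.span_induction with
    | mem x h =>
      obtain ⟨l, rfl⟩ := h
      change MvPolynomial.map (tK a) (p (c l)) ∈ W
      rw [hT]
      exact hspan _
    | zero =>
      rw [map_zero]
      exact Submodule.zero_mem _
    | add x y _ _ hx hy =>
      rw [map_add]
      exact Submodule.add_mem _ hx hy
    | smul k x _ hx =>
      rw [map_smul_tK]
      exact Submodule.smul_mem _ _ hx
  have hcoef0 : ∀ c, coeff 0 (p c) = ι (tr c (eval b P)) := by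
    intro c
    rw [hp]
    simp only
    rw [MvPolynomial.coeff_map, coeff_zero_pR]
  obtain ⟨w, hwW, hw1, hwfix⟩ := exists_fixed W hstab (p 0) (hspan 0) (by
    rw [hcoef0, tr_zero]
    intro h
    exact h0 (hinj (by rw [h, map_zero])))
  -- constant coefficients
  have hcc : ∀ m, ∃ ω : F, coeff m w = ι (C ω) := by
    intro m
    apply fixed_mem
    intro a
    have := congrArg (coeff m) (hwfix a)
    rwa [MvPolynomial.coeff_map] at this
  choose ω hω using hcc
  set γ : MvPolynomial (Fin q) (MvPolynomial (Fin n) F) :=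
    ∑ m ∈ w.support, monomial m (C (ω m)) with hγ
  have hγw : MvPolynomial.map ι γ = w := by
    rw [hγ, map_sum]
    conv_rhs => rw [w.as_sum]
    apply Finset.sum_congr rfl
    intro m _
    rw [MvPolynomial.map_monomial, ← hω]
  obtain ⟨α, hα⟩ := (Submodule.mem_span_range_iff_exists_fun K).1 hwW
  -- the substitution `η = y - b`
  set SK : MvPolynomial (Fin q) K →ₐ[K] MvPolynomial (Fin q) K :=
    bind₁ (fun j => X j - C (ι (b j))) with hSK
  have hSmap : ∀ f : MvPolynomial (Fin q) (MvPolynomial (Fin n) F),
      SK (MvPolynomial.map ι f) = MvPolynomial.map ι (bind₁ (fun j => X j - C (b j)) f) := by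
    intro f
    have h2 : (fun j : Fin q => MvPolynomial.map ι
        (X j - C (b j) : MvPolynomial (Fin q) (MvPolynomial (Fin n) F))) =
        fun j => X j - C (ι (b j)) := by
      funext j
      rw [map_sub, MvPolynomial.map_X, MvPolynomial.map_C]
    rw [MvPolynomial.map_bind₁, h2]
  have hSp : ∀ c, SK (p c) = MvPolynomial.map ι (QR b P c) := by
    intro c
    rw [hp]
    simp only
    rw [hSmap, bind_pR]
  have hli2 : LinearIndependent K fun l => co K q (SK (p (c l))) := by
    have h1 := hli.map' SK.toLinearMap (bind_ker _)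
    exact h1.map' (co K q) (co_ker K q)
  obtain ⟨e, he⟩ := exists_minor _ hli2
  set B : Matrix (Fin r) (Fin r) (MvPolynomial (Fin n) F) :=
    Matrix.of fun k l => coeff (e k) (QR b P (c l)) with hB
  have hBm : B.map ι = Matrix.of fun k l => co K q (SK (p (c l))) (e k) := by
    ext k l
    rw [Matrix.map_apply, hB, Matrix.of_apply, Matrix.of_apply]
    change _ = coeff (e k) (SK (p (c l)))
    rw [hSp, MvPolynomial.coeff_map]
  have hdet : ι B.det ≠ 0 := by
    rw [RingHom.map_det, RingHom.mapMatrix_apply, hBm]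
    exact he
  set v : Fin r → MvPolynomial (Fin n) F :=
    fun k => coeff (e k) (bind₁ (fun j => X j - C (b j)) γ) with hv
  have hvB : (fun k => ι (v k)) = (B.map ι).mulVec α := by
    funext k
    have h1 : ι (v k) = coeff (e k) (SK w) := by
      rw [← hγw, hSmap, MvPolynomial.coeff_map]
    rw [h1, ← hα, map_sum, MvPolynomial.coeff_sum]
    simp only [Matrix.mulVec, dotProduct]
    apply Finset.sum_congr rfl
    intro l _
    rw [map_smul, MvPolynomial.coeff_smul, smul_eq_mul, mul_comm, hBm, Matrix.of_apply]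
    rfl
  set A : Fin r → MvPolynomial (Fin n) F := B.adjugate.mulVec v with hA
  have hAι : ∀ l, ι (A l) = ι B.det * α l := by
    intro l
    have h1 : ι (A l) = ((B.adjugate.map ι).mulVec (fun k => ι (v k))) l := by
      rw [hA]
      exact RingHom.map_mulVec ι _ _ _
    have h2 : B.adjugate.map ι = (B.map ι).adjugate := by
      have := RingHom.map_adjugate ι B
      simpa only [RingHom.mapMatrix_apply] using this
    rw [h1, hvB, Matrix.mulVec_mulVec, h2, Matrix.adjugate_mul, Matrix.smul_mulVec,
      Matrix.one_mulVec, Pi.smul_apply, smul_eq_mul, RingHom.map_det, RingHom.mapMatrix_apply]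
  refine ⟨r, c, B.det, A, hr, hc, fun h => hdet (by rw [h, map_zero]), ?_, ?_⟩
  · rw [Matrix.det_apply]
    apply Subalgebra.sum_mem
    intro σ _
    rw [Units.smul_def, zsmul_eq_mul]
    apply Subalgebra.mul_mem
    · exact intCast_mem _ _
    apply Subalgebra.prod_mem
    intro i _
    rw [hB, Matrix.of_apply]
    unfold QR
    apply coeff_bind_mem (Algebra.adjoin F _).toSubring
    · intro j
      exact Algebra.subset_adjoin (Or.inr ⟨i, j, rfl⟩)
    · intro m
      rw [MvPolynomial.coeff_map]
      exact Algebra.subset_adjoin (Or.inl ⟨i, m, rfl⟩)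
  · apply hinj
    rw [map_sum]
    have h1 : coeff 0 w = ∑ l, α l * ι (tr (c l) (eval b P)) := by
      rw [← hα, MvPolynomial.coeff_sum]
      apply Finset.sum_congr rfl
      intro l _
      rw [MvPolynomial.coeff_smul, smul_eq_mul, hcoef0]
    rw [hw1] at h1
    calc ι B.det = ι B.det * 1 := (mul_one _).symm
      _ = ∑ l, ι (A l * tr (c l) (eval b P)) := by
        rw [h1, Finset.mul_sum]
        apply Finset.sum_congr rfl
        intro l _
        rw [map_mul, hAι]
        ring

end LS.Loc93

namespace LS

open MvPolynomial AK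

/-- Row LOC. -/
theorem loc {F : Type*} [Field F] [Infinite F] {n q M : ℕ}
    (b : Fin q → MvPolynomial (Fin n) F) (P : MvPolynomial (Fin q) (MvPolynomial (Fin n) F))
    (hM : ∀ μ ∈ P.support, ∀ j, μ j ≤ M) (h0 : eval b P ≠ 0) :
    ∃ (r : ℕ) (c : Fin r → Fin n → F) (D : MvPolynomial (Fin n) F)
      (A : Fin r → MvPolynomial (Fin n) F), r ≤ (M + 1) ^ q ∧
      (∀ l, (supp (c l)).card ≤ (M + 1) ^ q) ∧ D ≠ 0 ∧
      D ∈ Algebra.adjoin F ({g | ∃ l μ, g = tc (c l) (coeff μ P)} ∪
        {g | ∃ l j, g = tc (c l) (b j) - b j}) ∧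
      D = ∑ l, A l * tc (c l) (eval b P) :=
  Loc93.main b P hM h0

end LS
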