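import Pool.Agent.Lib.MP_64d474_lc.LS.TR2

/-!
# Row DL: differences of local sums are bounded
-/

set_option autoImplicit false

namespace LS

open MvPolynomial AK

variable {F : Type*} [Field F] {n : ℕ}

/-- `AlgF` from a family indexed by any finite type. -/
theorem algF_of2 {K : ℕ} {P : MvPolynomial (Fin n) F → Prop} {ι : Type*} [Fintype ι]
    (T : ι → MvPolynomial (Fin n) F) (h1 : ∀ j, IsProdK P (T j))
    (h2 : ∀ s : Finset ι, AlgebraicIndependent F (fun j : s => T j) → s.card ≤ K)
    {G : Set (MvPolynomial (Fin n) F)}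
    (h3 : G ⊆ (Algebra.adjoin F (Set.range T) : Set (MvPolynomial (Fin n) F))) : AlgF K P G := by
  classical
  let φ := Fintype.equivFin ι
  refine ⟨Fintype.card ι, fun j => T (φ.symm j), fun j => h1 _, fun s hs => ?_, ?_⟩
  · have h := h2 (s.map φ.symm.toEmbedding) (by
      let ψ : (s.map φ.symm.toEmbedding : Finset ι) ≃ s :=
        { toFun := fun j => ⟨φ j, by
            have := j.2
            rw [Finset.mem_map_equiv] at this
            simpa using this⟩
          invFun := fun j => ⟨φ.symm j, by
            rw [Finset.mem_map_equiv]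
            simp⟩
          left_inv := fun j => by simp
          right_inv := fun j => by simp }
      have h := hs.comp ψ ψ.injective
      convert h using 1
      funext j
      simp [ψ])
    simpa using h
  · have : Set.range (fun j => T (φ.symm j)) = Set.range T :=
      φ.symm.surjective.range_comp T
    rw [this]
    exact h3

/-- Sums over a partition. -/
theorem algF_sigma2 {K : ℕ} {P : MvPolynomial (Fin n) F → Prop} {ι : Type} [Fintype ι]
    {G : ι → Set (MvPolynomial (Fin n) F)} (h : ∀ i, AlgF K P (G i)) :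
    AlgF (Fintype.card ι * K) P (⋃ i, G i) := by
  classical
  choose m T h1 h2 h3 using h
  let S : (Σ i, Fin (m i)) → MvPolynomial (Fin n) F := fun x => T x.1 x.2
  refine algF_of2 S (fun x => h1 _ _) ?_ ?_
  · intro s' hs'
    have hcard : s'.card = ∑ i, (s'.filter fun x => x.1 = i).card :=
      Finset.card_eq_sum_card_fiberwise (fun x _ => Finset.mem_univ _)
    rw [hcard]
    calc ∑ i, (s'.filter fun x => x.1 = i).card ≤ ∑ _i : ι, K := by
          refine Finset.sum_le_sum fun i _ => ?_
          let s1 : Finset (Fin (m i)) := Finset.univ.filter fun l => (⟨i, l⟩ : Σ i, Fin (m i)) ∈ s'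
          have hfib : (s'.filter fun x => x.1 = i).card = s1.card := by
            symm
            refine Finset.card_bij (fun l _ => (⟨i, l⟩ : Σ i, Fin (m i))) ?_ ?_ ?_
            · intro l hl
              simp only [s1, Finset.mem_filter, Finset.mem_univ, true_and] at hl
              rw [Finset.mem_filter]
              exact ⟨hl, rfl⟩
            · intro l _ l' _ hll
              exact eq_of_heq (Sigma.mk.inj hll).2
            · rintro ⟨a', l⟩ hx
              rw [Finset.mem_filter] at hx
              obtain ⟨hx, hxi⟩ := hx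
              change a' = i at hxi
              subst hxi
              exact ⟨l, by simpa [s1] using hx, rfl⟩
          rw [hfib]
          refine h2 i s1 ?_
          exact hs'.comp (fun l : s1 => (⟨(⟨i, l.1⟩ : Σ i, Fin (m i)),
            (Finset.mem_filter.1 l.2).2⟩ : s')) (by
              intro l l' hll
              exact Subtype.ext (eq_of_heq (Sigma.mk.inj (congrArg Subtype.val hll)).2))
      _ = Fintype.card ι * K := by
          rw [Finset.sum_const, Finset.card_univ, smul_eq_mul]
  · intro f hf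
    obtain ⟨i, hi⟩ := Set.mem_iUnion.1 hf
    refine Algebra.adjoin_mono ?_ (h3 i hi)
    rintro _ ⟨l, rfl⟩
    exact ⟨⟨i, l⟩, rfl⟩

theorem algF_mono2 {K K' : ℕ} {P P' : MvPolynomial (Fin n) F → Prop} (hK : K ≤ K')
    (hP : ∀ f, P f → P' f) {G G' : Set (MvPolynomial (Fin n) F)} (hG : G' ⊆ G)
    (h : AlgF K P G) : AlgF K' P' G' := by
  obtain ⟨m, T, h1, h2, h3⟩ := h
  refine ⟨m, T, fun j => ?_, fun s hs => (h2 s hs).trans hK, hG.trans h3⟩
  obtain ⟨s, hs, h⟩ := h1 j
  exact ⟨s, fun p hp => hP p (hs p hp), h⟩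

/-- A member of the algebra generated by `G`. -/
theorem algF_adj2 {K : ℕ} {P : MvPolynomial (Fin n) F → Prop} {G G' : Set (MvPolynomial (Fin n) F)}
    (h : AlgF K P G) (hG : G' ⊆ (Algebra.adjoin F G : Set (MvPolynomial (Fin n) F))) :
    AlgF K P G' := by
  obtain ⟨m, T, h1, h2, h3⟩ := h
  refine ⟨m, T, h1, h2, fun f hf => ?_⟩
  have h4 : Algebra.adjoin F G ≤ Algebra.adjoin F (Set.range T) := Algebra.adjoin_le h3
  exact h4 (hG hf)

theorem llev_mono2 {s s' k e : ℕ} (hs : s ≤ s') (t : ℕ) :
    ∀ {f : MvPolynomial (Fin n) F}, LLev s k e t f → LLev s' k e t f := by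
  induction t with
  | zero => intro f h; exact ⟨h.1.trans hs, h.2⟩
  | succ t ih =>
    rintro f ⟨⟨m, g, h1, h2, h3⟩, h⟩
    exact ⟨⟨m, g, fun a => DH.alg_mono le_rfl (fun f hf => ih hf) (h1 a), h2, h3⟩, h⟩

/-- Polynomials without the moved variables are fixed. -/
theorem tc_fix2 (c : Fin n → F) (g : MvPolynomial (Fin n) F)
    (h : ∀ i, c i ≠ 0 → g.degreeOf i = 0) : tc c g = g := by
  have h1 : tc c g = aeval (X : Fin n → MvPolynomial (Fin n) F) g := by
    rw [tc, aeval_def, aeval_def]
    refine eval₂_congr _ _ _ ?_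
    intro i m hi hm
    by_cases hc : c i = 0
    · rw [hc, map_zero, add_zero]
    · exfalso
      have h2 := h i hc
      rw [degreeOf_eq_sup] at h2
      have h3 := Finset.le_sup (f := fun m : Fin n →₀ ℕ => m i) (mem_support_iff.2 hm)
      rw [h2] at h3
      exact (Finsupp.mem_support_iff.1 hi) (Nat.le_zero.1 h3)
  rw [h1, aeval_X_left_apply]

theorem diff_bounded {F : Type*} [Field F] {n s k e t : ℕ} (m : ℕ) (c : Fin n → F)
    (hc : (supp c).card ≤ m) {f : MvPolynomial (Fin n) F} (hf : LocSum k (LLev s k e t) f) :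
    AlgF (2 * k * (m * k)) (LLev ((e + 1) ^ m * s) k e t) {tc c f - f} := by
  classical
  obtain ⟨r, g, h1, h2, rfl⟩ := hf
  -- the moved summands
  let A : Finset (Fin r) := (supp c).biUnion fun i => Finset.univ.filter fun a =>
    (g a).degreeOf i ≠ 0
  have hA : A.card ≤ m * k :=
    (Finset.card_biUnion_le_card_mul _ _ _ fun i _ => h2 i).trans (Nat.mul_le_mul_right _ hc)
  have hfix : ∀ a, a ∉ A → tc c (g a) - g a = 0 := by
    intro a ha
    rw [tc_fix2, sub_self]
    intro i hi
    by_contra h3
    exact ha (Finset.mem_biUnion.2 ⟨i, by simpa [supp] using hi,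
      Finset.mem_filter.2 ⟨Finset.mem_univ _, h3⟩⟩)
  have hsum : tc c (∑ a, g a) - ∑ a, g a = ∑ a : A, (tc c (g a) - g a) := by
    rw [map_sum, ← Finset.sum_sub_distrib,
      ← Finset.sum_subset (Finset.subset_univ A) (fun a _ ha => hfix a ha), ← Finset.sum_coe_sort]
  have hs' : s ≤ (e + 1) ^ m * s := Nat.le_mul_of_pos_left _ (pow_pos (Nat.succ_pos e) m)
  have hone : ∀ x : A × Bool, AlgF k (LLev ((e + 1) ^ m * s) k e t)
      {if x.2 then tc c (g x.1) else g x.1} := by
    rintro ⟨a, b⟩
    obtain ⟨l, T, h3, h4, h5⟩ := h1 a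
    have h6 : AlgF k (LLev s k e t) {g a} := ⟨l, T, h3, h4, Set.singleton_subset_iff.2 h5⟩
    cases b with
    | true =>
      have h7 := algF_tc m c hc h6
      rw [Set.image_singleton] at h7
      simpa using h7
    | false =>
      have h7 := algF_mono2 le_rfl (fun f hf => llev_mono2 hs' t hf) subset_rfl h6
      simpa using h7
  have hall := algF_sigma2 hone
  rw [Fintype.card_prod, Fintype.card_bool, Fintype.card_coe] at hall
  refine algF_mono2 ?_ (fun f hf => hf) subset_rfl (algF_adj2 hall (G' := {tc c (∑ a, g a) -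
    ∑ a, g a}) ?_)
  · calc A.card * 2 * k ≤ m * k * 2 * k := by gcongr
      _ = 2 * k * (m * k) := by ring
  · rw [Set.singleton_subset_iff, hsum]
    refine Subalgebra.sum_mem _ fun a _ => Subalgebra.sub_mem _ ?_ ?_
    · exact Algebra.subset_adjoin (Set.mem_iUnion.2 ⟨(a, true), by simp⟩)
    · exact Algebra.subset_adjoin (Set.mem_iUnion.2 ⟨(a, false), by simp⟩)

end LS
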