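import Pool.Agent.Lib.MP_64d474_lc.LS.U95
import Pool.Agent.Lib.MP_64d474_lc.LS.DL2

/-!
# The classes `Qc` are closed under expressions
-/

set_option autoImplicit false

namespace LS.CL15

open MvPolynomial AK

section gen

variable {F : Type*} [Field F] {n : ℕ}

/-- The polynomials whose coefficients lie in the subalgebra `A`. -/
noncomputable def coeffsIn (A : Subalgebra F (MvPolynomial (Fin n) F)) (σ : Type*) :
    Subalgebra F (MvPolynomial σ (MvPolynomial (Fin n) F)) :=
  (mapAlgHom (σ := σ) A.val).range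

theorem coeff_mem_of {A : Subalgebra F (MvPolynomial (Fin n) F)} {σ : Type*}
    {Q : MvPolynomial σ (MvPolynomial (Fin n) F)} (h : Q ∈ coeffsIn A σ) (μ : σ →₀ ℕ) :
    coeff μ Q ∈ A := by
  obtain ⟨Q', rfl⟩ := h
  show coeff μ (map (A.val : A →+* MvPolynomial (Fin n) F) Q') ∈ A
  rw [coeff_map]
  exact (coeff μ Q').2

theorem C_mem_coeffsIn {A : Subalgebra F (MvPolynomial (Fin n) F)} {σ : Type*}
    {a : MvPolynomial (Fin n) F} (h : a ∈ A) :
    (C a : MvPolynomial σ (MvPolynomial (Fin n) F)) ∈ coeffsIn A σ :=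
  ⟨C ⟨a, h⟩, by
    show map (A.val : A →+* MvPolynomial (Fin n) F) (C ⟨a, h⟩) = C a
    rw [map_C]
    rfl⟩

theorem X_mem_coeffsIn {A : Subalgebra F (MvPolynomial (Fin n) F)} {σ : Type*} (j : σ) :
    (X j : MvPolynomial σ (MvPolynomial (Fin n) F)) ∈ coeffsIn A σ :=
  ⟨X j, by
    show map (A.val : A →+* MvPolynomial (Fin n) F) (X j) = X j
    rw [map_X]⟩

theorem eval₂_mem_coeffsIn {A : Subalgebra F (MvPolynomial (Fin n) F)} {σ τ : Type*}
    (φ : MvPolynomial (Fin n) F →+* MvPolynomial (Fin n) F)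
    (g : σ → MvPolynomial τ (MvPolynomial (Fin n) F)) (hg : ∀ j, g j ∈ coeffsIn A τ)
    (Q : MvPolynomial σ (MvPolynomial (Fin n) F)) (hQ : ∀ μ, φ (coeff μ Q) ∈ A) :
    eval₂ (C.comp φ) g Q ∈ coeffsIn A τ := by
  rw [eval₂_eq]
  refine Subalgebra.sum_mem _ fun μ _ => Subalgebra.mul_mem _ ?_
    (Subalgebra.prod_mem _ fun j _ => Subalgebra.pow_mem _ (hg j) _)
  exact C_mem_coeffsIn (hQ μ)

/-- degrees of `Q (X + C δ)` -/
theorem degreeOf_shift {σ τ : Type*} (φ : MvPolynomial (Fin n) F →+* MvPolynomial (Fin n) F)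
    (v : σ → τ) (hv : Function.Injective v) (δ : σ → MvPolynomial (Fin n) F) (x : τ) (M : ℕ)
    (Q : MvPolynomial σ (MvPolynomial (Fin n) F)) (hQ : ∀ μ ∈ Q.support, ∀ j, μ j ≤ M) :
    (eval₂ (C.comp φ) (fun j => X (v j) + C (δ j)) Q :
      MvPolynomial τ (MvPolynomial (Fin n) F)).degreeOf x ≤ M := by
  classical
  rw [eval₂_eq]
  refine (degreeOf_sum_le _ _ _).trans (Finset.sup_le fun μ hμ => ?_)
  refine (degreeOf_mul_le _ _ _).trans ?_
  rw [RingHom.comp_apply, degreeOf_C, zero_add]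
  refine (degreeOf_prod_le _ _ _).trans ?_
  have h1 : ∀ j, ((X (v j) + C (δ j) : MvPolynomial τ (MvPolynomial (Fin n) F)) ^ μ j).degreeOf x
      ≤ if x = v j then μ j else 0 := by
    intro j
    refine (degreeOf_pow_le _ _ _).trans ?_
    have h2 : (X (v j) + C (δ j) : MvPolynomial τ (MvPolynomial (Fin n) F)).degreeOf x ≤
        if x = v j then 1 else 0 := by
      refine (degreeOf_add_le _ _ _).trans ?_
      rw [degreeOf_C, degreeOf_X]
      simp
    split_ifs with h3
    · rw [if_pos h3] at h2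
      calc _ ≤ μ j * 1 := Nat.mul_le_mul_left _ h2
        _ = μ j := mul_one _
    · rw [if_neg h3] at h2
      rw [Nat.le_zero.1 h2, mul_zero]
  refine (Finset.sum_le_sum fun j _ => h1 j).trans ?_
  by_cases hx : ∃ j ∈ μ.support, x = v j
  · obtain ⟨j, hj, rfl⟩ := hx
    rw [Finset.sum_eq_single_of_mem j hj]
    · rw [if_pos rfl]
      exact hQ μ hμ j
    · intro j' _ hne
      rw [if_neg]
      intro h
      exact hne (hv h).symm
  · push Not at hx
    rw [Finset.sum_eq_zero]
    · exact Nat.zero_le _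
    · intro j hj
      rw [if_neg (hx j hj)]

theorem degreeOf_aeval_le15 {κ τ : Type*} (g : κ → MvPolynomial τ (MvPolynomial (Fin n) F))
    (x : τ) (M : ℕ) (hg : ∀ i, (g i).degreeOf x ≤ M) (f : MvPolynomial κ F) :
    (aeval g f).degreeOf x ≤ f.totalDegree * M := by
  classical
  rw [aeval_def, eval₂_eq]
  refine (degreeOf_sum_le _ _ _).trans (Finset.sup_le fun d hd => ?_)
  refine (degreeOf_mul_le _ _ _).trans ?_
  have h1 : (algebraMap F (MvPolynomial τ (MvPolynomial (Fin n) F)) (coeff d f)).degreeOf x = 0 := by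
    rw [IsScalarTower.algebraMap_apply F (MvPolynomial (Fin n) F)
      (MvPolynomial τ (MvPolynomial (Fin n) F)), algebraMap_eq]
    exact degreeOf_C _ _
  rw [h1, zero_add]
  refine (degreeOf_prod_le _ _ _).trans ?_
  calc ∑ i ∈ d.support, (g i ^ d i).degreeOf x ≤ ∑ i ∈ d.support, d i * M := by
        refine Finset.sum_le_sum fun i _ => (degreeOf_pow_le _ _ _).trans ?_
        exact Nat.mul_le_mul_left _ (hg i)
    _ = (∑ i ∈ d.support, d i) * M := by rw [Finset.sum_mul]
    _ ≤ f.totalDegree * M := Nat.mul_le_mul_right _ (le_totalDegree hd)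

theorem eval_shift {σ τ : Type*} (φ : MvPolynomial (Fin n) F →+* MvPolynomial (Fin n) F)
    (v : σ → τ) (b : σ → MvPolynomial (Fin n) F) (b' : τ → MvPolynomial (Fin n) F)
    (hb : ∀ j, b' (v j) = b j) (Q : MvPolynomial σ (MvPolynomial (Fin n) F)) :
    eval b' (eval₂ (C.comp φ) (fun j => X (v j) + C (φ (b j) - b j)) Q) = φ (eval b Q) := by
  show _ = φ (eval₂ (RingHom.id _) b Q)
  rw [eval₂_comp_left (eval b'), eval₂_comp_left φ]
  have h1 : (eval b').comp (C.comp φ) = φ.comp (RingHom.id (MvPolynomial (Fin n) F)) := by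
    refine RingHom.ext fun a => ?_
    simp only [RingHom.comp_apply, eval_C, RingHom.id_apply]
  rw [h1]
  congr 1
  funext j
  simp [hb]

theorem tr_single (i : Fin n) (t : F) : AK.DH.tr (Pi.single i 1) t = tc (Pi.single i t) := by
  refine MvPolynomial.algHom_ext fun j => ?_
  simp only [AK.DH.tr, tc, aeval_X]
  congr 2
  by_cases h : j = i
  · subst h; simp
  · simp [Pi.single_eq_of_ne h]

theorem supp_single_card (i : Fin n) (t : F) : (supp (Pi.single i t : Fin n → F)).card ≤ 1 := by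
  classical
  have : supp (Pi.single i t : Fin n → F) ⊆ {i} := by
    intro j hj
    rw [supp, Finset.mem_filter] at hj
    rw [Finset.mem_singleton]
    by_contra h
    exact hj.2 (by rw [Pi.single_eq_of_ne h])
  exact (Finset.card_le_card this).trans (by simp)

theorem algF_mono {K K' : ℕ} {P P' : MvPolynomial (Fin n) F → Prop} (hK : K ≤ K')
    (hP : ∀ f, P f → P' f) {G G' : Set (MvPolynomial (Fin n) F)} (hG : G' ⊆ G)
    (h : AlgF K P G) : AlgF K' P' G' := by
  obtain ⟨m, T, h1, h2, h3⟩ := h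
  refine ⟨m, T, fun j => ?_, fun s hs => (h2 s hs).trans hK, hG.trans h3⟩
  obtain ⟨s, hs, h⟩ := h1 j
  exact ⟨s, fun p hp => hP p (hs p hp), h⟩

theorem locSum_mono {k : ℕ} {P P' : MvPolynomial (Fin n) F → Prop}
    (hP : ∀ f, P f → P' f) {f : MvPolynomial (Fin n) F} (h : LocSum k P f) : LocSum k P' f := by
  obtain ⟨m, g, h1, h2, h3⟩ := h
  exact ⟨m, g, fun a => DH.alg_mono le_rfl hP (h1 a), h2, h3⟩

theorem llev_mono {s s' k e : ℕ} (hs : s ≤ s') (t : ℕ) :
    ∀ {f : MvPolynomial (Fin n) F}, LLev s k e t f → LLev s' k e t f := by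
  induction t with
  | zero => intro f h; exact ⟨h.1.trans hs, h.2⟩
  | succ t ih => intro f h; exact ⟨locSum_mono (fun f hf => ih hf) h.1, h.2⟩

end gen

/-- Row CL. -/
theorem expr_qc {F : Type*} [Field F] [Infinite F] {n q M K k s e E M' t : ℕ} (i : Fin n)
    (BB : Finset (MvPolynomial (Fin n) F))
    (h : ∀ b ∈ BB, Qc q M K k (LLev s k e t) b ∧ ∀ j, b.degreeOf j ≤ E)
    (b : MvPolynomial (Fin n) F) (hb : Expr (Pi.single i 1) E M' BB b) :
    Qc ((E + 1) * q) (M' * M) ((E + 1) * (E + 1) * (K + q * (2 * k * k))) k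
      (LLev ((e + 1) * s) k e t) b := by
  classical
  obtain ⟨g, p, hg, hp, rfl⟩ := hb
  obtain ⟨c, lam, -, hlam⟩ := AK.DH.coeff_eq_sum_tr (F := F) (Pi.single i (1 : F)) E
  choose bb Q hbb hQM hQA hQe using fun a : Fin (E + 1) => (h _ (hg a)).1
  -- translations
  let φ : Fin (E + 1) → MvPolynomial (Fin n) F →+* MvPolynomial (Fin n) F := fun j =>
    (tc (Pi.single i (c j)) : MvPolynomial (Fin n) F →ₐ[F] MvPolynomial (Fin n) F).toRingHom
  let v : Fin (E + 1) → Fin q → Fin ((E + 1) * q) := fun a j => finProdFinEquiv (a, j)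
  have hv : ∀ a, Function.Injective (v a) := fun a j j' hj => by
    have := finProdFinEquiv.injective hj
    exact (Prod.mk.inj this).2
  let b' : Fin ((E + 1) * q) → MvPolynomial (Fin n) F := fun x =>
    bb (finProdFinEquiv.symm x).1 (finProdFinEquiv.symm x).2
  have hb' : ∀ a j, b' (v a j) = bb a j := fun a j => by
    simp only [b', v, Equiv.symm_apply_apply]
  let G : Fin (E + 1) → Fin (E + 1) →
      MvPolynomial (Fin ((E + 1) * q)) (MvPolynomial (Fin n) F) := fun a j' =>
    eval₂ (C.comp (φ j')) (fun j => X (v a j) + C (φ j' (bb a j) - bb a j)) (Q a)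
  have hG : ∀ a j', eval b' (G a j') = φ j' (g a) := fun a j' => by
    rw [hQe a]
    exact eval_shift (φ j') (v a) (bb a) b' (hb' a) (Q a)
  let H : Fin (E + 1) × Fin (E + 1) →
      MvPolynomial (Fin ((E + 1) * q)) (MvPolynomial (Fin n) F) := fun al =>
    ∑ j', C (C (lam al.2 j')) * G al.1 j'
  have hH : ∀ al, eval b' (H al) = (sh (Pi.single i 1) (g al.1)).coeff al.2 := fun al => by
    rw [hlam (g al.1) ((sh_natDegree_degreeOf i _).trans ((h _ (hg al.1)).2 i)) al.2]
    simp only [H, map_sum, map_mul, eval_C, hG]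
    refine Finset.sum_congr rfl fun j' _ => ?_
    rw [tr_single]
    rfl
  refine ⟨b', aeval H p, fun x => ?_, fun μ hμ x => ?_, ?_, ?_⟩
  · refine locSum_mono (fun f hf => llev_mono ?_ t hf) (hbb _ _)
    exact Nat.le_mul_of_pos_left _ (Nat.succ_pos e)
  · refine (monomial_le_degreeOf x hμ).trans ?_
    refine (degreeOf_aeval_le15 H x M (fun al => ?_) p).trans (Nat.mul_le_mul_right _ hp)
    refine (degreeOf_sum_le _ _ _).trans (Finset.sup_le fun j' _ => ?_)
    refine (degreeOf_mul_le _ _ _).trans ?_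
    rw [degreeOf_C, zero_add]
    exact degreeOf_shift (φ j') (v al.1) (hv al.1) _ x M (Q al.1) (hQM al.1)
  · -- the algebra
    have hs : (e + 1) ^ 1 * s = (e + 1) * s := by rw [pow_one]
    have h1 : ∀ aj : Fin (E + 1) × Fin (E + 1), AlgF (K + q * (2 * k * k))
        (LLev ((e + 1) * s) k e t)
        ((tc (Pi.single i (c aj.2)) '' {x | ∃ μ, x = coeff μ (Q aj.1)}) ∪
          ⋃ j : Fin q, {tc (Pi.single i (c aj.2)) (bb aj.1 j) - bb aj.1 j}) := by
      intro aj
      refine algF_union ?_ ?_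
      · have := algF_tc 1 (Pi.single i (c aj.2)) (supp_single_card _ _) (hQA aj.1)
        rwa [hs] at this
      · have h2 : ∀ j : Fin q, AlgF (2 * k * k) (LLev ((e + 1) * s) k e t)
            {tc (Pi.single i (c aj.2)) (bb aj.1 j) - bb aj.1 j} := by
          intro j
          have := diff_bounded 1 (Pi.single i (c aj.2)) (supp_single_card _ _) (hbb aj.1 j)
          rwa [hs, one_mul] at this
        have h3 := algF_iUnion h2
        rwa [Fintype.card_fin] at h3
    have h4 := algF_adjoin (algF_iUnion h1)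
    rw [Fintype.card_prod, Fintype.card_fin] at h4
    refine algF_mono le_rfl (fun f hf => hf) ?_ h4
    rintro x ⟨μ, rfl⟩
    set A : Subalgebra F (MvPolynomial (Fin n) F) := Algebra.adjoin F (⋃ aj :
      Fin (E + 1) × Fin (E + 1), ((tc (Pi.single i (c aj.2)) '' {x | ∃ μ, x = coeff μ (Q aj.1)}) ∪
          ⋃ j : Fin q, {tc (Pi.single i (c aj.2)) (bb aj.1 j) - bb aj.1 j})) with hA
    have hGA : ∀ a j', G a j' ∈ coeffsIn A (Fin ((E + 1) * q)) := by
      intro a j'
      refine eval₂_mem_coeffsIn (φ j') _ (fun j => ?_) (Q a) (fun μ => ?_)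
      · refine Subalgebra.add_mem _ (X_mem_coeffsIn _) (C_mem_coeffsIn ?_)
        refine Algebra.subset_adjoin (Set.mem_iUnion.2 ⟨(a, j'), Or.inr ?_⟩)
        exact Set.mem_iUnion.2 ⟨j, rfl⟩
      · refine Algebra.subset_adjoin (Set.mem_iUnion.2 ⟨(a, j'), Or.inl ?_⟩)
        exact ⟨_, ⟨μ, rfl⟩, rfl⟩
    have hHA : ∀ al, H al ∈ coeffsIn A (Fin ((E + 1) * q)) := by
      intro al
      refine Subalgebra.sum_mem _ fun j' _ => Subalgebra.mul_mem _ (C_mem_coeffsIn ?_) (hGA _ _)
      exact Subalgebra.algebraMap_mem _ _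
    refine coeff_mem_of ?_ μ
    have h5 : aeval H p ∈ Algebra.adjoin F (Set.range H) := by
      rw [Algebra.adjoin_range_eq_range_aeval]
      exact ⟨p, rfl⟩
    refine (Algebra.adjoin_le ?_ : _ ≤ coeffsIn A (Fin ((E + 1) * q))) h5
    rintro _ ⟨al, rfl⟩
    exact hHA al
  · -- evaluation
    have h6 : ∀ p : MvPolynomial (Fin (E + 1) × Fin (E + 1)) F, eval b' (aeval H p) =
        aeval (fun al : Fin (E + 1) × Fin (E + 1) =>
          (sh (Pi.single i 1) (g al.1)).coeff (al.2 : ℕ)) p := by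
      intro p
      have h7 : ((aeval b' : MvPolynomial (Fin ((E + 1) * q)) (MvPolynomial (Fin n) F) →ₐ[
          MvPolynomial (Fin n) F] MvPolynomial (Fin n) F).restrictScalars F).comp (aeval H) =
          aeval (fun al : Fin (E + 1) × Fin (E + 1) =>
            (sh (Pi.single i (1 : F)) (g al.1)).coeff (al.2 : ℕ)) := by
        refine MvPolynomial.algHom_ext fun al => ?_
        rw [AlgHom.comp_apply, aeval_X, aeval_X, AlgHom.restrictScalars_apply, aeval_eq_eval]
        exact hH al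
      have h8 := DFunLike.congr_fun h7 p
      rw [AlgHom.comp_apply, AlgHom.restrictScalars_apply, aeval_eq_eval] at h8
      exact h8
    exact (h6 p).symm

end LS.CL15
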