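import Pool.Agent.Lib.MP_64d474_lc.LS.Defs15

set_option autoImplicit false

/-!
# Unions of families
-/

namespace LS

open MvPolynomial AK

theorem algF_of {F : Type*} [Field F] {n K : ℕ} {P : MvPolynomial (Fin n) F → Prop} {ι : Type*}
    [Fintype ι] {G : Set (MvPolynomial (Fin n) F)}
    (T : ι → MvPolynomial (Fin n) F) (h1 : ∀ j, IsProdK P (T j))
    (h2 : ∀ s : Finset ι, AlgebraicIndependent F (fun j : s => T j) → s.card ≤ K)
    (h3 : G ⊆ (Algebra.adjoin F (Set.range T) : Set (MvPolynomial (Fin n) F))) :
    AlgF K P G := by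
  classical
  let φ := Fintype.equivFin ι
  refine ⟨Fintype.card ι, fun j => T (φ.symm j), fun j => h1 _, fun s hs => ?_, ?_⟩
  · have h := h2 (s.map φ.symm.toEmbedding) (by
      let ψ : (s.map φ.symm.toEmbedding : Finset ι) ≃ s :=
        { toFun := fun j => ⟨φ j, by
            have := j.2
            rw [Finset.mem_map_equiv] at this
            simpa using this⟩
          invFun := fun j => ⟨φ.symm j, by
            rw [Finset.mem_map_equiv]
            simp⟩
          left_inv := fun j => by simp
          right_inv := fun j => by simp }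
      have h := hs.comp ψ ψ.injective
      convert h using 1
      funext j
      simp [ψ])
    simpa using h
  · have : Set.range (fun j => T (φ.symm j)) = Set.range T :=
      φ.symm.surjective.range_comp T
    rw [this]
    exact h3

/-- Row U: two families. -/
theorem algF_union {F : Type*} [Field F] {n K K' : ℕ} {P : MvPolynomial (Fin n) F → Prop}
    {G G' : Set (MvPolynomial (Fin n) F)} (h : AlgF K P G) (h' : AlgF K' P G') :
    AlgF (K + K') P (G ∪ G') := by
  classical
  obtain ⟨m, T, h1, h2, h3⟩ := h
  obtain ⟨m', T', h1', h2', h3'⟩ := h'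
  refine algF_of (Sum.elim T T') (fun j => ?_) (fun s hs => ?_) ?_
  · rcases j with j | j
    · exact h1 j
    · exact h1' j
  · rw [← Finset.card_toLeft_add_card_toRight]
    refine Nat.add_le_add (h2 _ ?_) (h2' _ ?_)
    · exact hs.comp (fun j : s.toLeft => (⟨Sum.inl j.1, Finset.mem_toLeft.1 j.2⟩ : s))
        fun a b hab => Subtype.ext (Sum.inl_injective (congrArg Subtype.val hab))
    · exact hs.comp (fun j : s.toRight => (⟨Sum.inr j.1, Finset.mem_toRight.1 j.2⟩ : s))
        fun a b hab => Subtype.ext (Sum.inr_injective (congrArg Subtype.val hab))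
  · rw [Set.Sum.elim_range]
    refine Set.union_subset (h3.trans ?_) (h3'.trans ?_)
    · exact Algebra.adjoin_mono Set.subset_union_left
    · exact Algebra.adjoin_mono Set.subset_union_right

/-- Row U: finitely many families. -/
theorem algF_iUnion {F : Type*} [Field F] {n K : ℕ} {P : MvPolynomial (Fin n) F → Prop}
    {ι : Type*} [Fintype ι] {G : ι → Set (MvPolynomial (Fin n) F)} (h : ∀ i, AlgF K P (G i)) :
    AlgF (Fintype.card ι * K) P (⋃ i, G i) := by
  classical
  choose m T h1 h2 h3 using h
  refine algF_of (fun x : Σ i, Fin (m i) => T x.1 x.2) (fun x => h1 _ _) (fun s hs => ?_) ?_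
  · have hs1 : s = Finset.univ.sigma fun i =>
        s.preimage (Sigma.mk i) sigma_mk_injective.injOn := by
      ext x
      simp
    have hc : s.card = ∑ i, (s.preimage (Sigma.mk i) sigma_mk_injective.injOn).card := by
      conv_lhs => rw [hs1]
      exact Finset.card_sigma _ _
    rw [hc]
    refine (Finset.sum_le_card_nsmul _ _ K fun i _ => h2 i _ ?_).trans (le_of_eq ?_)
    · exact hs.comp (fun j : (s.preimage (Sigma.mk i) sigma_mk_injective.injOn : Finset _) =>
        (⟨⟨i, j.1⟩, Finset.mem_preimage.1 j.2⟩ : s))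
        fun a b hab => Subtype.ext (eq_of_heq (Sigma.mk.inj (congrArg Subtype.val hab)).2)
    · rw [Finset.card_univ, smul_eq_mul]
  · refine Set.iUnion_subset fun i => (h3 i).trans ?_
    refine Algebra.adjoin_mono ?_
    rintro _ ⟨j, rfl⟩
    exact ⟨⟨i, j⟩, rfl⟩

/-- Row U: in the algebra generated by `G`. -/
theorem algF_adjoin {F : Type*} [Field F] {n K : ℕ} {P : MvPolynomial (Fin n) F → Prop}
    {G : Set (MvPolynomial (Fin n) F)} (h : AlgF K P G) :
    AlgF K P (Algebra.adjoin F G : Set (MvPolynomial (Fin n) F)) := by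
  obtain ⟨m, T, h1, h2, h3⟩ := h
  exact ⟨m, T, h1, h2, SetLike.coe_subset_coe.2 (Algebra.adjoin_le h3)⟩

end LS
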