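import Pool.Agent.Lib.MP_64d474_lc.LS.TR2

/-!
# Row DL: differences of local sums (helper90)
-/

set_option autoImplicit false

namespace LS

open MvPolynomial AK

namespace DL90

variable {F : Type*} [Field F] {n : ℕ}

theorem tc_fix {c : Fin n → F} {g : MvPolynomial (Fin n) F}
    (h : ∀ i ∈ supp c, g.degreeOf i = 0) : tc c g = g := by
  classical
  have key : (tc c : MvPolynomial (Fin n) F →ₐ[F] MvPolynomial (Fin n) F).toRingHom g =
      (AlgHom.id F (MvPolynomial (Fin n) F)).toRingHom g := by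
    refine hom_congr_vars ?_ ?_ rfl
    · ext a
      simp [tc, algebraMap_eq]
    · intro i hi _
      have hc : c i = 0 := by
        by_contra hne
        have h1 := h i (by simp [supp, hne])
        rw [degreeOf_def, Multiset.count_eq_zero] at h1
        apply h1
        rw [vars_def, Multiset.mem_toFinset] at hi
        exact hi
      simp [tc, hc]
  exact key

theorem prodK_mono {P P' : MvPolynomial (Fin n) F → Prop} (hP : ∀ f, P f → P' f)
    {T : MvPolynomial (Fin n) F} (h : IsProdK P T) : IsProdK P' T := by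
  obtain ⟨s, h1, h2⟩ := h
  exact ⟨s, fun p hp => hP p (h1 p hp), h2⟩

theorem algF_mono {K K' : ℕ} {P P' : MvPolynomial (Fin n) F → Prop} (hK : K ≤ K')
    (hP : ∀ f, P f → P' f) {G : Set (MvPolynomial (Fin n) F)} (h : AlgF K P G) :
    AlgF K' P' G := by
  obtain ⟨m, T, h1, h2, h3⟩ := h
  exact ⟨m, T, fun j => prodK_mono hP (h1 j), fun s hs => (h2 s hs).trans hK, h3⟩

theorem algF_subset {K : ℕ} {P : MvPolynomial (Fin n) F → Prop}
    {G G' : Set (MvPolynomial (Fin n) F)} (hG : G ⊆ G') (h : AlgF K P G') : AlgF K P G := by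
  obtain ⟨m, T, h1, h2, h3⟩ := h
  exact ⟨m, T, h1, h2, hG.trans h3⟩

theorem algF_single {K : ℕ} {P : MvPolynomial (Fin n) F → Prop} {g : MvPolynomial (Fin n) F} :
    AlgF K P {g} ↔ DH.Alg K P g := by
  unfold AlgF DH.Alg
  simp only [Set.singleton_subset_iff, SetLike.mem_coe]

theorem locSum_mono {k k' : ℕ} {P P' : MvPolynomial (Fin n) F → Prop} (hk : k ≤ k')
    (hP : ∀ f, P f → P' f) {f : MvPolynomial (Fin n) F} (h : LocSum k P f) : LocSum k' P' f := by
  obtain ⟨m, g, h1, h2, h3⟩ := h
  exact ⟨m, g, fun a => DH.alg_mono hk hP (h1 a), fun i => (h2 i).trans hk, h3⟩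

theorem llev_mono {s s' k k' e e' : ℕ} (hs : s ≤ s') (hk : k ≤ k') (he : e ≤ e') (t : ℕ) :
    ∀ {f : MvPolynomial (Fin n) F}, LLev s k e t f → LLev s' k' e' t f := by
  induction t with
  | zero => intro f h; exact ⟨h.1.trans hs, fun i => (h.2 i).trans he⟩
  | succ t ih =>
    intro f h
    exact ⟨locSum_mono hk (fun f hf => ih hf) h.1, fun i => (h.2 i).trans he⟩

/-- `AlgF` from a family indexed by any finite type. -/
theorem algF_of {K : ℕ} {P : MvPolynomial (Fin n) F → Prop} {ι : Type*} [Fintype ι]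
    (T : ι → MvPolynomial (Fin n) F) (h1 : ∀ j, IsProdK P (T j))
    (h2 : ∀ s : Finset ι, AlgebraicIndependent F (fun j : s => T j) → s.card ≤ K)
    {G : Set (MvPolynomial (Fin n) F)}
    (h3 : G ⊆ (Algebra.adjoin F (Set.range T) : Set (MvPolynomial (Fin n) F))) :
    AlgF K P G := by
  classical
  let φ := Fintype.equivFin ι
  refine ⟨Fintype.card ι, fun j => T (φ.symm j), fun j => h1 _, fun s hs => ?_, ?_⟩
  · have h := h2 (s.map φ.symm.toEmbedding) (by
      have h := hs.comp (fun j : (s.map φ.symm.toEmbedding : Finset ι) =>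
        (⟨φ j, by
          have := j.2
          rw [Finset.mem_map_equiv] at this
          simpa using this⟩ : s)) (by
          intro a b hab
          have h2 : φ a = φ b := congrArg Subtype.val hab
          exact Subtype.ext (φ.injective h2))
      have e : (fun j : (s.map φ.symm.toEmbedding : Finset ι) => T j) =
          ((fun j : s => T (φ.symm j)) ∘ fun j : (s.map φ.symm.toEmbedding : Finset ι) =>
        (⟨φ j, by
          have := j.2
          rw [Finset.mem_map_equiv] at this
          simpa using this⟩ : s)) := by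
        funext j
        simp
      rw [e]
      exact h)
    simpa using h
  · have : Set.range (fun j => T (φ.symm j)) = Set.range T :=
      φ.symm.surjective.range_comp T
    rw [this]
    exact h3

theorem algF_iUnion90 {K : ℕ} {P : MvPolynomial (Fin n) F → Prop}
    {ι : Type*} [Fintype ι] {G : ι → Set (MvPolynomial (Fin n) F)} (h : ∀ i, AlgF K P (G i)) :
    AlgF (Fintype.card ι * K) P (⋃ i, G i) := by
  classical
  choose m T h1 h2 h3 using h
  refine algF_of (ι := Σ i, Fin (m i)) (fun p => T p.1 p.2) (fun p => h1 p.1 p.2) ?_ ?_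
  · intro s hs
    have hfib : ∀ i ∈ (Finset.univ : Finset ι), (s.filter fun p => p.1 = i).card ≤ K := by
      intro i _
      have hle := h2 i (Finset.univ.filter fun j => (⟨i, j⟩ : Σ i, Fin (m i)) ∈ s) (by
        have hc := hs.comp (fun j : (Finset.univ.filter fun j =>
          (⟨i, j⟩ : Σ i, Fin (m i)) ∈ s : Finset (Fin (m i))) =>
          (⟨⟨i, j.1⟩, (Finset.mem_filter.1 j.2).2⟩ : s)) (by
            intro a b hab
            have h4 : (⟨i, a.1⟩ : Σ i, Fin (m i)) = ⟨i, b.1⟩ := congrArg Subtype.val hab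
            exact Subtype.ext (eq_of_heq (Sigma.mk.inj h4).2))
        exact hc)
      refine le_trans ?_ hle
      refine Finset.card_le_card_of_surjOn (fun j => (⟨i, j⟩ : Σ i, Fin (m i))) ?_
      rintro ⟨i', j⟩ hp
      have hp' := Finset.mem_filter.1 (Finset.mem_coe.1 hp)
      obtain ⟨hp1, hp2⟩ := hp'
      have hp3 : i' = i := hp2
      subst hp3
      exact ⟨j, by simpa using hp1, rfl⟩
    have hcard := Finset.card_eq_sum_card_fiberwise (s := s) (t := (Finset.univ : Finset ι))
      (f := fun p => p.1) (fun _ _ => Finset.mem_coe.2 (Finset.mem_univ _))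
    rw [hcard]
    refine (Finset.sum_le_card_nsmul _ _ K hfib).trans ?_
    rw [Finset.card_univ, smul_eq_mul]
  · refine Set.iUnion_subset fun i => (h3 i).trans ?_
    apply Algebra.adjoin_mono
    rintro _ ⟨j, rfl⟩
    exact ⟨⟨i, j⟩, rfl⟩

theorem algF_adjoin90 {K : ℕ} {P : MvPolynomial (Fin n) F → Prop}
    {G : Set (MvPolynomial (Fin n) F)} (h : AlgF K P G) :
    AlgF K P (Algebra.adjoin F G : Set (MvPolynomial (Fin n) F)) := by
  obtain ⟨m, T, h1, h2, h3⟩ := h
  exact ⟨m, T, h1, h2, Algebra.adjoin_le h3⟩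

/-- Row DL, from the rows U and TR. -/
theorem diff_bounded_of {s k e t : ℕ}
    (hU : ∀ {K : ℕ} {P : MvPolynomial (Fin n) F → Prop} {ι : Type} [Fintype ι]
      {G : ι → Set (MvPolynomial (Fin n) F)}, (∀ i, AlgF K P (G i)) →
      AlgF (Fintype.card ι * K) P (⋃ i, G i))
    (hA : ∀ {K : ℕ} {P : MvPolynomial (Fin n) F → Prop} {G : Set (MvPolynomial (Fin n) F)},
      AlgF K P G → AlgF K P (Algebra.adjoin F G : Set (MvPolynomial (Fin n) F)))
    (hT : ∀ {K : ℕ} (m : ℕ) (c : Fin n → F), (supp c).card ≤ m →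
      ∀ {G : Set (MvPolynomial (Fin n) F)}, AlgF K (LLev s k e t) G →
      AlgF K (LLev ((e + 1) ^ m * s) k e t) (tc c '' G))
    (m : ℕ) (c : Fin n → F)
    (hc : (supp c).card ≤ m) {f : MvPolynomial (Fin n) F} (hf : LocSum k (LLev s k e t) f) :
    AlgF (2 * k * (m * k)) (LLev ((e + 1) ^ m * s) k e t) {tc c f - f} := by
  classical
  obtain ⟨q, g, h1, h2, rfl⟩ := hf
  have hmono : ∀ f : MvPolynomial (Fin n) F, LLev s k e t f → LLev ((e + 1) ^ m * s) k e t f :=
    fun f hf => llev_mono (Nat.le_mul_of_pos_left _ (by positivity)) le_rfl le_rfl t hf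
  set A : Finset (Fin q) := (supp c).biUnion fun i => Finset.univ.filter fun a =>
    (g a).degreeOf i ≠ 0 with hAdef
  have hAcard : A.card ≤ m * k := by
    refine (Finset.card_biUnion_le_card_mul _ _ k fun i _ => ?_).trans
      (Nat.mul_le_mul_right k hc)
    exact (Finset.card_le_card (fun a ha => by simpa using ha)).trans (h2 i)
  have hfix : ∀ a, a ∉ A → tc c (g a) = g a := by
    intro a ha
    refine tc_fix fun i hi => ?_
    by_contra hne
    exact ha (Finset.mem_biUnion.2 ⟨i, hi, by simp [hne]⟩)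
  have hsum : tc c (∑ a, g a) - ∑ a, g a = ∑ a ∈ A, (tc c (g a) - g a) := by
    rw [map_sum, ← Finset.sum_sub_distrib]
    symm
    refine Finset.sum_subset (Finset.subset_univ _) fun a _ ha => ?_
    rw [hfix a ha, sub_self]
  rw [hsum]
  have hfam : ∀ p : A × Bool, AlgF k (LLev ((e + 1) ^ m * s) k e t)
      (if p.2 then tc c '' {g p.1} else {g p.1}) := by
    intro p
    by_cases hp : p.2
    · rw [if_pos hp]
      exact hT m c hc (algF_single.2 (h1 p.1))
    · rw [if_neg hp]
      exact algF_mono le_rfl hmono (algF_single.2 (h1 p.1))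
  have hall := hA (hU hfam)
  have hcard : Fintype.card (A × Bool) * k ≤ 2 * k * (m * k) := by
    rw [Fintype.card_prod, Fintype.card_coe, Fintype.card_bool]
    calc A.card * 2 * k = 2 * k * A.card := by ring
      _ ≤ 2 * k * (m * k) := Nat.mul_le_mul_left _ hAcard
  refine algF_subset ?_ (algF_mono hcard (fun _ h => h) hall)
  rw [Set.singleton_subset_iff, SetLike.mem_coe]
  refine Subalgebra.sum_mem _ fun a ha => Subalgebra.sub_mem _ ?_ ?_
  · apply Algebra.subset_adjoin
    refine Set.mem_iUnion.2 ⟨(⟨a, ha⟩, true), ?_⟩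
    simp
  · apply Algebra.subset_adjoin
    refine Set.mem_iUnion.2 ⟨(⟨a, ha⟩, false), ?_⟩
    simp

end DL90

/-- Row DL: only the summands that contain one of the moved variables contribute. -/
theorem diff_bounded {F : Type*} [Field F] {n s k e t : ℕ} (m : ℕ) (c : Fin n → F)
    (hc : (supp c).card ≤ m) {f : MvPolynomial (Fin n) F} (hf : LocSum k (LLev s k e t) f) :
    AlgF (2 * k * (m * k)) (LLev ((e + 1) ^ m * s) k e t) {tc c f - f} :=
  DL90.diff_bounded_of (fun h => DL90.algF_iUnion90 h) (fun h => DL90.algF_adjoin90 h)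
    (fun m c hc _ h => algF_tc m c hc h) m c hc hf

end LS
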