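import Pool.Agent.Lib.MP_64d474_lc.DH.MainB15

/-!
# Sums of unboundedly many terms, each variable in few of them, at every level: definitions
-/

set_option autoImplicit false

namespace LS

open MvPolynomial AK

variable {F : Type*} [Field F] {n : ℕ}

/-- The translation `x ↦ x + c`. -/
noncomputable def tc (c : Fin n → F) : MvPolynomial (Fin n) F →ₐ[F] MvPolynomial (Fin n) F :=
  aeval fun i => X i + C (c i)

open Classical in
/-- The nonzero coordinates. -/
noncomputable def supp (c : Fin n → F) : Finset (Fin n) := Finset.univ.filter fun i => c i ≠ 0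

/-- All members of `G` are polynomials in the `T_j`, products of members of `P`, at most `K` of
them algebraically independent. -/
def AlgF (K : ℕ) (P : MvPolynomial (Fin n) F → Prop) (G : Set (MvPolynomial (Fin n) F)) : Prop :=
  ∃ (m : ℕ) (T : Fin m → MvPolynomial (Fin n) F), (∀ j, IsProdK P (T j)) ∧
    (∀ s : Finset (Fin m), AlgebraicIndependent F (fun j : s => T j) → s.card ≤ K) ∧
    G ⊆ (Algebra.adjoin F (Set.range T) : Set (MvPolynomial (Fin n) F))

open Classical in
/-- A sum of any number of terms from `Alg k P`, each variable in at most `k` of them. -/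
def LocSum (k : ℕ) (P : MvPolynomial (Fin n) F → Prop) (f : MvPolynomial (Fin n) F) : Prop :=
  ∃ (m : ℕ) (g : Fin m → MvPolynomial (Fin n) F), (∀ a, DH.Alg k P (g a)) ∧
    (∀ i : Fin n, (Finset.univ.filter fun a => (g a).degreeOf i ≠ 0).card ≤ k) ∧ f = ∑ a, g a

/-- The levels. -/
def LLev (s k e : ℕ) : ℕ → MvPolynomial (Fin n) F → Prop
  | 0, f => f.support.card ≤ s ∧ ∀ i, f.degreeOf i ≤ e
  | t + 1, f => LocSum k (LLev s k e t) f ∧ ∀ i, f.degreeOf i ≤ e

/-- `h = Q (b_1, …, b_q)`, `b_j` local sums, `Q` of degree at most `M` in each variable, with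
coefficients that are polynomials in products of members of `P`, transcendence degree at most
`K`. -/
def Qc (q M K k : ℕ) (P : MvPolynomial (Fin n) F → Prop) (h : MvPolynomial (Fin n) F) : Prop :=
  ∃ (b : Fin q → MvPolynomial (Fin n) F) (Q : MvPolynomial (Fin q) (MvPolynomial (Fin n) F)),
    (∀ j, LocSum k P (b j)) ∧ (∀ μ ∈ Q.support, ∀ j, μ j ≤ M) ∧
    AlgF K P {g | ∃ μ, g = coeff μ Q} ∧ h = eval b Q

end LS
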