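import Pool.Agent.Lib.MP_64d474_lc.LS.Defs15

/-!
# Row R1: descent

`W_m` = span over `K = F(x)` of the translates of `P` by vectors with at most `m` nonzero
coordinates.  `W_m = W_(m+1)` for some `m`, so `W_m` is stable under all translations, and a member
with constant coefficient `1` and minimal support is invariant, so its coefficients are in `F`.
-/

set_option autoImplicit false

namespace LS

namespace Desc14

open MvPolynomial AK

section
variable {F : Type*} [Field F] {n q : ℕ}

theorem tc_tc (c d : Fin n → F) (f : MvPolynomial (Fin n) F) : tc c (tc d f) = tc (c + d) f := by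
  have h : (tc c).comp (tc d) = tc (c + d) := by
    apply MvPolynomial.algHom_ext
    intro i
    simp only [tc, AlgHom.comp_apply, aeval_X, map_add, Pi.add_apply]
    rw [← MvPolynomial.algebraMap_eq, AlgHom.commutes]
    ring
  exact DFunLike.congr_fun h f

theorem tc_zero (f : MvPolynomial (Fin n) F) : tc (0 : Fin n → F) f = f := by
  have h : tc (0 : Fin n → F) = AlgHom.id F (MvPolynomial (Fin n) F) := by
    apply MvPolynomial.algHom_ext
    intro i
    simp [tc]
  rw [h]
  rfl

theorem tc_inj (c : Fin n → F) : Function.Injective (tc c) := by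
  intro f g h
  have h1 := congrArg (tc (-c)) h
  rwa [tc_tc, tc_tc, neg_add_cancel, tc_zero, tc_zero] at h1

theorem eval_tc (c x : Fin n → F) (f : MvPolynomial (Fin n) F) :
    eval x (tc c f) = eval (x + c) f := by
  have h : (aeval x).comp (tc c) = aeval (R := F) (x + c) := by
    apply MvPolynomial.algHom_ext
    intro i
    simp [tc]
  have h1 := DFunLike.congr_fun h f
  simpa [aeval_eq_eval] using h1

/-- the translation of the rational functions -/
noncomputable def sg (c : Fin n → F) :
    FractionRing (MvPolynomial (Fin n) F) →+* FractionRing (MvPolynomial (Fin n) F) :=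
  IsFractionRing.lift (A := MvPolynomial (Fin n) F)
    (g := (algebraMap (MvPolynomial (Fin n) F) (FractionRing (MvPolynomial (Fin n) F))).comp
      (tc c : MvPolynomial (Fin n) F →ₐ[F] MvPolynomial (Fin n) F).toRingHom)
    ((IsFractionRing.injective (MvPolynomial (Fin n) F)
      (FractionRing (MvPolynomial (Fin n) F))).comp (tc_inj c))

theorem sg_algebraMap (c : Fin n → F) (f : MvPolynomial (Fin n) F) :
    sg c (algebraMap _ (FractionRing (MvPolynomial (Fin n) F)) f) =
      algebraMap _ (FractionRing (MvPolynomial (Fin n) F)) (tc c f) := by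
  rw [sg, IsFractionRing.lift_algebraMap]
  rfl

theorem sg_sg (c d : Fin n → F) (z : FractionRing (MvPolynomial (Fin n) F)) :
    sg c (sg d z) = sg (c + d) z := by
  obtain ⟨a, b, -, rfl⟩ := IsFractionRing.div_surjective (A := MvPolynomial (Fin n) F) z
  simp only [map_div₀, sg_algebraMap, tc_tc]

theorem sg_zero (z : FractionRing (MvPolynomial (Fin n) F)) : sg 0 z = z := by
  obtain ⟨a, b, -, rfl⟩ := IsFractionRing.div_surjective (A := MvPolynomial (Fin n) F) z
  simp only [map_div₀, sg_algebraMap, tc_zero]

/-- An invariant rational function is constant. -/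
theorem inv_const [Infinite F] (z : FractionRing (MvPolynomial (Fin n) F))
    (h : ∀ c, sg c z = z) : ∃ a : F, z = algebraMap F _ a := by
  obtain ⟨A, B, hB, rfl⟩ := IsFractionRing.div_surjective (A := MvPolynomial (Fin n) F) z
  have hB0 : B ≠ 0 := nonZeroDivisors.ne_zero hB
  have hB1 : algebraMap _ (FractionRing (MvPolynomial (Fin n) F)) B ≠ 0 :=
    IsFractionRing.to_map_ne_zero_of_mem_nonZeroDivisors hB
  obtain ⟨x, hx⟩ : ∃ x, eval x B ≠ 0 := by
    by_contra hcon
    push Not at hcon
    exact hB0 (MvPolynomial.funext fun x => by rw [hcon, map_zero])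
  have h1 : ∀ c, tc c A * B = A * tc c B := by
    intro c
    have h2 := h c
    rw [map_div₀, sg_algebraMap, sg_algebraMap] at h2
    have h3 : algebraMap _ (FractionRing (MvPolynomial (Fin n) F)) (tc c B) ≠ 0 := by
      intro h4
      rw [← map_zero (algebraMap (MvPolynomial (Fin n) F) _)] at h4
      have h5 := IsFractionRing.injective (MvPolynomial (Fin n) F)
        (FractionRing (MvPolynomial (Fin n) F)) h4
      rw [← map_zero (tc c)] at h5
      exact hB0 (tc_inj c h5)
    rw [div_eq_div_iff h3 hB1, ← map_mul, ← map_mul] at h2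
    exact IsFractionRing.injective (MvPolynomial (Fin n) F)
        (FractionRing (MvPolynomial (Fin n) F)) h2
  have h2 : A * C (eval x B) = C (eval x A) * B := by
    apply MvPolynomial.funext
    intro y
    have h3 := congrArg (eval x) (h1 (y - x))
    rw [map_mul, map_mul, eval_tc, eval_tc, add_sub_cancel] at h3
    rw [map_mul, map_mul, eval_C, eval_C]
    exact h3
  refine ⟨eval x A / eval x B, ?_⟩
  rw [div_eq_iff hB1, map_div₀]
  have hx' : algebraMap F (FractionRing (MvPolynomial (Fin n) F)) (eval x B) ≠ 0 := by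
    rw [Ne, map_eq_zero]
    exact hx
  rw [div_mul_eq_mul_div, eq_div_iff hx']
  have h3 := congrArg (algebraMap _ (FractionRing (MvPolynomial (Fin n) F))) h2
  rw [map_mul, map_mul] at h3
  exact h3

theorem supp_add (c d : Fin n → F) :
    (supp (c + d)).card ≤ (supp c).card + (supp d).card := by
  classical
  refine le_trans (Finset.card_le_card ?_) (Finset.card_union_le _ _)
  intro i hi
  rw [Finset.mem_union]
  simp only [supp, Finset.mem_filter, Finset.mem_univ, true_and, Pi.add_apply] at hi ⊢
  by_contra hcon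
  push Not at hcon
  rw [hcon.1, hcon.2, add_zero] at hi
  exact hi rfl

theorem supp_single (i : Fin n) (a : F) : (supp (Pi.single i a)).card ≤ 1 := by
  classical
  refine le_trans (Finset.card_le_card (t := {i}) ?_) (Finset.card_singleton i).le
  intro j hj
  simp only [supp, Finset.mem_filter, Finset.mem_univ, true_and] at hj
  rw [Finset.mem_singleton]
  by_contra h
  apply hj
  rw [Pi.single_eq_of_ne h]

variable (P : MvPolynomial (Fin q) (MvPolynomial (Fin n) F))

/-- the coefficients of the translate -/
noncomputable def uu (c : Fin n → F) : P.support → FractionRing (MvPolynomial (Fin n) F) :=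
  fun μ => algebraMap _ _ (tc c (coeff μ.1 P))

variable {P}

/-- the semilinear action -/
noncomputable def Sc (c : Fin n → F) (v : P.support → FractionRing (MvPolynomial (Fin n) F)) :
    P.support → FractionRing (MvPolynomial (Fin n) F) := fun μ => sg c (v μ)

theorem Sc_uu (c d : Fin n → F) : Sc c (uu P d) = uu P (c + d) := by
  ext μ
  rw [Sc, uu, uu, sg_algebraMap, tc_tc]

theorem Sc_Sc (c d : Fin n → F) (v : P.support → FractionRing (MvPolynomial (Fin n) F)) :
    Sc c (Sc d v) = Sc (c + d) v := by
  ext μ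
  rw [Sc, Sc, Sc, sg_sg]

theorem Sc_zero (v : P.support → FractionRing (MvPolynomial (Fin n) F)) : Sc 0 v = v := by
  ext μ
  rw [Sc, sg_zero]

variable (P)

/-- the span of the translates by vectors with at most `m` nonzero coordinates -/
noncomputable def WW (m : ℕ) : Submodule (FractionRing (MvPolynomial (Fin n) F))
    (P.support → FractionRing (MvPolynomial (Fin n) F)) :=
  Submodule.span _ {v | ∃ c : Fin n → F, (supp c).card ≤ m ∧ v = uu P c}

variable {P}

theorem WW_mono {m m' : ℕ} (h : m ≤ m') : WW P m ≤ WW P m' := by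
  apply Submodule.span_mono
  rintro _ ⟨c, hc, rfl⟩
  exact ⟨c, hc.trans h, rfl⟩

theorem uu_mem {m : ℕ} (c : Fin n → F) (h : (supp c).card ≤ m) : uu P c ∈ WW P m :=
  Submodule.subset_span ⟨c, h, rfl⟩

theorem Sc_mem {m k : ℕ} (c : Fin n → F) (hc : (supp c).card ≤ k)
    (v : P.support → FractionRing (MvPolynomial (Fin n) F)) (hv : v ∈ WW P m) :
    Sc c v ∈ WW P (m + k) := by
  induction hv using Submodule.span_induction with
  | mem v hv =>
    obtain ⟨d, hd, rfl⟩ := hv
    rw [Sc_uu]
    apply uu_mem
    refine (supp_add c d).trans ?_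
    omega
  | zero =>
    have : Sc c (0 : P.support → FractionRing (MvPolynomial (Fin n) F)) = 0 := by
      ext μ
      simp [Sc]
    rw [this]
    exact Submodule.zero_mem _
  | add v w _ _ hv hw =>
    have : Sc c (v + w) = Sc c v + Sc c w := by
      ext μ
      simp [Sc]
    rw [this]
    exact Submodule.add_mem _ hv hw
  | smul a v _ hv =>
    have : Sc c (a • v) = sg c a • Sc c v := by
      ext μ
      simp [Sc]
    rw [this]
    exact Submodule.smul_mem _ _ hv

theorem exists_stable : ∃ m ≤ P.support.card, WW P (m + 1) ≤ WW P m := by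
  by_contra hcon
  push Not at hcon
  have h1 : ∀ m, m ≤ P.support.card + 1 →
      m ≤ Module.finrank (FractionRing (MvPolynomial (Fin n) F)) (WW P m) := by
    intro m
    induction m with
    | zero => exact fun _ => Nat.zero_le _
    | succ m ih =>
      intro hm
      have h2 : WW P m < WW P (m + 1) :=
        lt_of_le_of_ne (WW_mono (Nat.le_succ m)) fun h =>
          hcon m (by omega) (le_of_eq h.symm)
      have h3 := Submodule.finrank_lt_finrank_of_lt h2
      have h4 := ih (by omega)
      omega
  have h2 := h1 _ le_rfl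
  have h3 := Submodule.finrank_le (WW P (P.support.card + 1))
  rw [Module.finrank_fintype_fun_eq_card, Fintype.card_coe] at h3
  omega

theorem stable {m : ℕ} (h : WW P (m + 1) ≤ WW P m) (c : Fin n → F)
    (v : P.support → FractionRing (MvPolynomial (Fin n) F)) (hv : v ∈ WW P m) :
    Sc c v ∈ WW P m := by
  classical
  have h1 : ∀ (s : Finset (Fin n)), Sc (∑ i ∈ s, Pi.single i (c i)) v ∈ WW P m := by
    intro s
    induction s using Finset.induction_on with
    | empty =>
      rw [Finset.sum_empty, Sc_zero]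
      exact hv
    | insert i s hi ih =>
      rw [Finset.sum_insert hi, ← Sc_Sc]
      exact h (Sc_mem _ (supp_single i (c i)) _ ih)
  have h2 := h1 Finset.univ
  have h3 : ∑ i, Pi.single i (c i) = c := Finset.univ_sum_single c
  rwa [h3] at h2

/-- the invariant vector -/
theorem exists_inv {W : Submodule (FractionRing (MvPolynomial (Fin n) F))
    (P.support → FractionRing (MvPolynomial (Fin n) F))}
    (hW : ∀ (c : Fin n → F) v, v ∈ W → Sc c v ∈ W) (o : P.support)
    (h0 : ∃ v ∈ W, v o = 1) : ∃ v ∈ W, v o = 1 ∧ ∀ c : Fin n → F, Sc c v = v := by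
  classical
  have h1 : ∃ k : ℕ, ∃ v ∈ W, v o = 1 ∧ (Finset.univ.filter fun μ => v μ ≠ 0).card = k := by
    obtain ⟨v, hv, hv1⟩ := h0
    exact ⟨_, v, hv, hv1, rfl⟩
  obtain ⟨v, hv, hv1, hvk⟩ := Nat.find_spec h1
  refine ⟨v, hv, hv1, fun c => ?_⟩
  by_contra hne
  obtain ⟨μ, hμ⟩ := Function.ne_iff.1 hne
  have hd : Sc c v μ - v μ ≠ 0 := sub_ne_zero.2 hμ
  have hvμ : v μ ≠ 0 := by
    intro h2
    apply hd
    rw [Sc, h2, map_zero, sub_zero]
  set w : P.support → FractionRing (MvPolynomial (Fin n) F) :=
    v - (v μ / (Sc c v μ - v μ)) • (Sc c v - v) with hw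
  have hwW : w ∈ W := W.sub_mem hv (W.smul_mem _ (W.sub_mem (hW c v hv) hv))
  have hw1 : w o = 1 := by
    have h2 : Sc c v o = 1 := by rw [Sc, hv1, map_one]
    simp only [hw, Pi.sub_apply, Pi.smul_apply, smul_eq_mul]
    rw [h2, hv1, sub_self, mul_zero, sub_zero]
  have hwμ : w μ = 0 := by
    simp only [hw, Pi.sub_apply, Pi.smul_apply, smul_eq_mul]
    rw [div_mul_cancel₀ _ hd, sub_self]
  have hws : ∀ ν, w ν ≠ 0 → v ν ≠ 0 := by
    intro ν h2 h3
    apply h2
    have h4 : Sc c v ν = 0 := by rw [Sc, h3, map_zero]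
    simp only [hw, Pi.sub_apply, Pi.smul_apply, smul_eq_mul]
    rw [h4, h3, sub_zero, mul_zero, sub_zero]
  have h2 : (Finset.univ.filter fun ν => w ν ≠ 0).card < Nat.find h1 := by
    rw [← hvk]
    apply Finset.card_lt_card
    refine Finset.ssubset_iff_of_subset ?_ |>.2 ⟨μ, ?_, ?_⟩
    · intro ν hν
      rw [Finset.mem_filter] at hν ⊢
      exact ⟨hν.1, hws ν hν.2⟩
    · simp [hvμ]
    · simp [hwμ]
  exact Nat.find_min h1 h2 ⟨w, hwW, hw1, rfl⟩

theorem card_supp {M : ℕ} (hM : ∀ μ ∈ P.support, ∀ j, μ j ≤ M) :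
    P.support.card ≤ (M + 1) ^ q := by
  classical
  have h1 : P.support.card ≤ Fintype.card (Fin q → Fin (M + 1)) := by
    rw [← Fintype.card_coe]
    refine Fintype.card_le_of_injective
      (fun μ : P.support => fun j => (⟨μ.1 j, Nat.lt_succ_of_le (hM μ.1 μ.2 j)⟩ : Fin (M + 1))) ?_
    intro μ ν h
    apply Subtype.ext
    ext j
    have h2 := congrFun h j
    exact congrArg Fin.val h2
  rwa [Fintype.card_fun, Fintype.card_fin, Fintype.card_fin] at h1

end

theorem descent {F : Type*} [Field F] [Infinite F] {n q M : ℕ}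
    (P : MvPolynomial (Fin q) (MvPolynomial (Fin n) F)) (hM : ∀ μ ∈ P.support, ∀ j, μ j ≤ M)
    (h0 : coeff 0 P ≠ 0) :
    ∃ (r : ℕ) (c : Fin r → Fin n → F) (a : Fin r → FractionRing (MvPolynomial (Fin n) F))
      (γ : MvPolynomial (Fin q) F), r ≤ (M + 1) ^ q ∧ (∀ l, (supp (c l)).card ≤ (M + 1) ^ q) ∧
      coeff 0 γ = 1 ∧
      LinearIndependent (FractionRing (MvPolynomial (Fin n) F)) (fun l =>
        map (algebraMap (MvPolynomial (Fin n) F) (FractionRing (MvPolynomial (Fin n) F)))
          (map (tc (c l) : MvPolynomial (Fin n) F →ₐ[F] MvPolynomial (Fin n) F).toRingHom P)) ∧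
      map (algebraMap F (FractionRing (MvPolynomial (Fin n) F))) γ = ∑ l, C (a l) *
        map (algebraMap (MvPolynomial (Fin n) F) (FractionRing (MvPolynomial (Fin n) F)))
          (map (tc (c l) : MvPolynomial (Fin n) F →ₐ[F] MvPolynomial (Fin n) F).toRingHom P) := by
  classical
  obtain ⟨m, hm, hst⟩ := exists_stable (P := P)
  have hN := card_supp hM
  have ho : (0 : Fin q →₀ ℕ) ∈ P.support := mem_support_iff.2 h0
  have hu0 : uu P 0 ⟨0, ho⟩ ≠ 0 := by
    rw [uu, tc_zero]
    intro h1
    have h2 : algebraMap (MvPolynomial (Fin n) F) (FractionRing (MvPolynomial (Fin n) F))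
        (coeff 0 P) = algebraMap (MvPolynomial (Fin n) F) _ 0 := by
      rw [map_zero]
      exact h1
    exact h0 (IsFractionRing.injective (MvPolynomial (Fin n) F)
      (FractionRing (MvPolynomial (Fin n) F)) h2)
  obtain ⟨w, hw, hw1, hwinv⟩ := exists_inv (W := WW P m) (fun c v hv => stable hst c v hv)
    ⟨0, ho⟩ ⟨(uu P 0 ⟨0, ho⟩)⁻¹ • uu P 0, Submodule.smul_mem _ _ (uu_mem 0 (by simp [supp])), by
      rw [Pi.smul_apply, smul_eq_mul, inv_mul_cancel₀ hu0]⟩
  choose γ0 hγ0 using fun μ => inv_const (w μ) fun c => congrFun (hwinv c) μ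
  obtain ⟨b, hbs, hbspan, hbli⟩ := exists_linearIndependent (FractionRing (MvPolynomial (Fin n) F))
    {v | ∃ c : Fin n → F, (supp c).card ≤ m ∧ v = uu P c}
  have hbfin : b.Finite := hbli.setFinite
  have := hbfin.fintype
  have hcard : Fintype.card b ≤ P.support.card := by
    have h1 := hbli.fintype_card_le_finrank
    rwa [Module.finrank_fintype_fun_eq_card, Fintype.card_coe] at h1
  set e := (Fintype.equivFin b).symm with he
  have hbc : ∀ l : Fin (Fintype.card b), ∃ c : Fin n → F, (supp c).card ≤ m ∧
      (e l : P.support → FractionRing (MvPolynomial (Fin n) F)) = uu P c := fun l => hbs (e l).2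
  choose c hc hec using hbc
  have hli : LinearIndependent (FractionRing (MvPolynomial (Fin n) F)) (fun l => uu P (c l)) := by
    have h1 := hbli.comp e e.injective
    have h2 : (fun l => uu P (c l)) = (Subtype.val ∘ e) := by
      ext l μ
      rw [← hec]
      rfl
    rw [h2]
    exact h1
  have hspan : w ∈ Submodule.span (FractionRing (MvPolynomial (Fin n) F))
      (Set.range fun l => uu P (c l)) := by
    have h1 : (Set.range fun l => uu P (c l)) = b := by
      ext v
      constructor
      · rintro ⟨l, rfl⟩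
        show uu P (c l) ∈ b
        rw [← hec]
        exact (e l).2
      · intro hv
        refine ⟨e.symm ⟨v, hv⟩, ?_⟩
        show uu P (c _) = v
        rw [← hec, Equiv.apply_symm_apply]
    rw [h1, hbspan]
    exact hw
  obtain ⟨a, ha⟩ := (Submodule.mem_span_range_iff_exists_fun _).1 hspan
  have hcoeff : ∀ (c : Fin n → F) (μ : Fin q →₀ ℕ), coeff μ
      (map (algebraMap (MvPolynomial (Fin n) F) (FractionRing (MvPolynomial (Fin n) F)))
        (map (tc c : MvPolynomial (Fin n) F →ₐ[F] MvPolynomial (Fin n) F).toRingHom P)) =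
      algebraMap (MvPolynomial (Fin n) F) (FractionRing (MvPolynomial (Fin n) F))
        (tc c (coeff μ P)) := by
    intro c μ
    rw [coeff_map, coeff_map]
    rfl
  refine ⟨Fintype.card b, c, a, ∑ μ : P.support, monomial μ.1 (γ0 μ), hcard.trans hN,
    fun l => (hc l).trans (hm.trans hN), ?_, ?_, ?_⟩
  · rw [coeff_sum, Finset.sum_eq_single ⟨0, ho⟩]
    · rw [coeff_monomial, if_pos rfl]
      have h1 := hγ0 ⟨0, ho⟩
      rw [hw1, ← map_one (algebraMap F _)] at h1
      exact ((algebraMap F (FractionRing (MvPolynomial (Fin n) F))).injective h1).symm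
    · intro μ _ hμ
      rw [coeff_monomial, if_neg]
      intro h1
      exact hμ (Subtype.ext h1)
    · exact fun h1 => absurd (Finset.mem_univ _) h1
  · let ρ : MvPolynomial (Fin q) (FractionRing (MvPolynomial (Fin n) F)) →ₗ[
        FractionRing (MvPolynomial (Fin n) F)]
        (P.support → FractionRing (MvPolynomial (Fin n) F)) :=
      LinearMap.pi fun μ => MvPolynomial.lcoeff _ μ.1
    apply LinearIndependent.of_comp ρ
    have h1 : (ρ ∘ fun l => map (algebraMap (MvPolynomial (Fin n) F)
        (FractionRing (MvPolynomial (Fin n) F)))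
          (map (tc (c l) : MvPolynomial (Fin n) F →ₐ[F] MvPolynomial (Fin n) F).toRingHom P)) =
        fun l => uu P (c l) := by
      ext l μ
      exact hcoeff (c l) μ.1
    rw [h1]
    exact hli
  · ext μ
    rw [coeff_map, coeff_sum, coeff_sum, map_sum]
    simp only [coeff_C_mul, hcoeff]
    by_cases hμ : μ ∈ P.support
    · have h1 := congrFun ha ⟨μ, hμ⟩
      rw [Finset.sum_apply] at h1
      simp only [Pi.smul_apply, smul_eq_mul, uu] at h1
      rw [h1, hγ0, Finset.sum_eq_single ⟨μ, hμ⟩]
      · rw [coeff_monomial, if_pos rfl]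
      · intro ν _ hν
        rw [coeff_monomial, if_neg, map_zero]
        intro h2
        exact hν (Subtype.ext h2)
      · exact fun h2 => absurd (Finset.mem_univ _) h2
    · have h2 : coeff μ P = 0 := notMem_support_iff.1 hμ
      rw [Finset.sum_eq_zero, Finset.sum_eq_zero]
      · intro l _
        rw [h2, map_zero, map_zero, mul_zero]
      · intro ν _
        rw [coeff_monomial, if_neg, map_zero]
        rintro rfl
        exact hμ ν.2

end Desc14

end LS
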