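import Pool.Agent.Lib.MP_64d474_lc.LS.CL15
import Pool.Agent.Lib.MP_64d474_lc.LS.Loc93

/-!
# Hitting the classes `Qc`
-/

set_option autoImplicit false

namespace LS.HQ15

open MvPolynomial AK

universe u

theorem eval_tc {F : Type*} [Field F] {n : ℕ} (c o : Fin n → F) (f : MvPolynomial (Fin n) F) :
    eval o (tc c f) = eval (fun i => o i + c i) f := by
  have h : (aeval o : MvPolynomial (Fin n) F →ₐ[F] F).comp (tc c) =
      aeval fun i => o i + c i := by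
    refine MvPolynomial.algHom_ext fun i => ?_
    rw [AlgHom.comp_apply, tc, aeval_X, aeval_X, map_add, aeval_X, aeval_C]
    rfl
  have h2 := DFunLike.congr_fun h f
  rw [AlgHom.comp_apply, aeval_eq_eval, aeval_eq_eval] at h2
  exact h2

theorem alg_of_algF {F : Type*} [Field F] {n K : ℕ} {P : MvPolynomial (Fin n) F → Prop}
    {G : Set (MvPolynomial (Fin n) F)} (h : AlgF K P G) {f : MvPolynomial (Fin n) F} (hf : f ∈ G) :
    DH.Alg K P f := by
  obtain ⟨m, T, h1, h2, h3⟩ := h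
  exact ⟨m, T, h1, h2, h3 hf⟩

/-- Row HQ. -/
theorem hit_qc {F : Type u} [Field F] [CharZero F] {n q M K k s e t R S : ℕ}
    (ih : ∀ f : MvPolynomial (Fin n) F, f ≠ 0 →
      DH.Alg ((M + 1) ^ q * (K + q * (2 * k * ((M + 1) ^ q * k))))
        (LLev ((e + 1) ^ ((M + 1) ^ q) * s) k e t) f → aeval (DH.B.bX F n S R) f ≠ 0)
    (f : MvPolynomial (Fin n) F) (h0 : f ≠ 0) (hf : Qc q M K k (LLev s k e t) f) :
    aeval (DH.B.bX F n S (R + (M + 1) ^ q)) f ≠ 0 := by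
  classical
  obtain ⟨b, Q, hb, hM, hA, rfl⟩ := hf
  obtain ⟨r, c, D, A, hr, hsupp, hD0, hDmem, hD⟩ := loc b Q hM h0
  obtain ⟨N, hN⟩ : ∃ N, N = (M + 1) ^ q := ⟨_, rfl⟩
  rw [← hN] at ih hr hsupp ⊢
  have h1 : ∀ l : Fin r, AlgF (K + q * (2 * k * (N * k))) (LLev ((e + 1) ^ N * s) k e t)
      ((tc (c l) '' {x | ∃ μ, x = coeff μ Q}) ∪ ⋃ j : Fin q, {tc (c l) (b j) - b j}) := by
    intro l
    refine algF_union (algF_tc N (c l) (hsupp l) hA) ?_
    have h3 := algF_iUnion fun j => diff_bounded N (c l) (hsupp l) (hb j)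
    rwa [Fintype.card_fin] at h3
  have h2 := algF_adjoin (algF_iUnion h1)
  rw [Fintype.card_fin] at h2
  have h3 : D ∈ (Algebra.adjoin F (⋃ l : Fin r, ((tc (c l) '' {x | ∃ μ, x = coeff μ Q}) ∪
      ⋃ j : Fin q, {tc (c l) (b j) - b j})) : Set (MvPolynomial (Fin n) F)) := by
    refine Algebra.adjoin_mono ?_ hDmem
    rintro x (⟨l, μ, rfl⟩ | ⟨l, j, rfl⟩)
    · exact Set.mem_iUnion.2 ⟨l, Or.inl ⟨_, ⟨μ, rfl⟩, rfl⟩⟩
    · exact Set.mem_iUnion.2 ⟨l, Or.inr (Set.mem_iUnion.2 ⟨j, rfl⟩)⟩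
  have h4 := DH.alg_mono (Nat.mul_le_mul_right _ hr) (fun f hf => hf) (alg_of_algF h2 h3)
  have h5 := ih D hD0 h4
  obtain ⟨x, hx⟩ := DH.exists_eval_ne h5
  rw [DH.B.eval_bX, hD, map_sum] at hx
  obtain ⟨l, -, hl⟩ := Finset.exists_ne_zero_of_sum_ne_zero hx
  rw [map_mul] at hl
  have h6 := right_ne_zero_of_mul hl
  rw [eval_tc] at h6
  obtain ⟨a', w', h7⟩ := DH.B.exists_append (S := S) (supp (c l)) (hsupp l) (x (Sum.inl ()))
    (fun j => x (Sum.inr (Sum.inl j))) (fun j => x (Sum.inr (Sum.inr j))) (c l) (fun i hi => by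
      by_contra h
      exact hi (by rw [supp, Finset.mem_filter]; exact ⟨Finset.mem_univ _, h⟩))
  intro h8
  apply h6
  rw [← h7]
  have h9 := DH.B.eval_bX (Sum.elim (fun _ : Unit => x (Sum.inl ())) (Sum.elim a' w'))
    (eval b Q) (S := S)
  rw [h8, map_zero] at h9
  exact h9.symm

end LS.HQ15
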