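import Pool.Agent.Lib.MP_64d474_lc.LS.HQ15
import Pool.Agent.Lib.MP_64d474_lc.AK.MainGen55

/-!
# Induction on the level
-/

set_option autoImplicit false

namespace LS.Ind15

open MvPolynomial AK

universe u

/-- The parameters (number of local sums, degree, transcendence degree, individual degree). -/
def par (k e : ℕ) : ℕ → ℕ × ℕ × ℕ × ℕ
  | 0 => (1, 1, 0, e)
  | j + 1 => (((par k e j).2.2.2 + 1) * (par k e j).1,
      2 * (par k e j).2.2.2 ^ 2 * ((par k e j).2.2.2 + 1) * (par k e j).2.1,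
      ((par k e j).2.2.2 + 1) * ((par k e j).2.2.2 + 1) *
        ((par k e j).2.2.1 + (par k e j).1 * (2 * k * k)),
      2 * (par k e j).2.2.2 ^ 2 * ((par k e j).2.2.2 + 1) * (par k e j).2.2.2)

/-- The classes for the iteration. -/
def PC {F : Type*} [Field F] {n : ℕ} (s k e t j : ℕ) (b : MvPolynomial (Fin n) F) : Prop :=
  Qc (par k e j).1 (par k e j).2.1 (par k e j).2.2.1 k (LLev ((e + 1) ^ j * s) k e t) b ∧
    ∀ i, b.degreeOf i ≤ (par k e j).2.2.2

theorem one_le_par (k : ℕ) {e : ℕ} (he : 1 ≤ e) (j : ℕ) : 1 ≤ (par k e j).2.2.2 := by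
  induction j with
  | zero => exact he
  | succ j ih =>
    show 0 < 2 * (par k e j).2.2.2 ^ 2 * ((par k e j).2.2.2 + 1) * (par k e j).2.2.2
    have : 0 < (par k e j).2.2.2 := ih
    positivity

theorem steps_PC {F : Type u} [Field F] [Infinite F] {n s k e t : ℕ} (he : 1 ≤ e) :
    Steps (F := F) (n := n) (PC s k e t) := by
  intro j i BB hBB
  obtain ⟨BB', h1, h2⟩ := step_gen (one_le_par k he j) (Pi.single i (1 : F)) BB
    (fun b hb => (hBB b hb).1)
    (fun b hb => (sh_natDegree_degreeOf i b).trans ((hBB b hb).2.2 i))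
  refine ⟨BB', fun b hb => ⟨(h1 b hb).1, ?_, ?_⟩, h2⟩
  · have h3 := CL15.expr_qc i BB (fun b hb => (hBB b hb).2) b (h1 b hb).2
    have h4 : (e + 1) * ((e + 1) ^ j * s) = (e + 1) ^ (j + 1) * s := by ring
    rw [h4] at h3
    exact h3
  · intro i'
    exact DH.expr_degreeOf i i' BB (fun b hb => (hBB b hb).2.2 i') b (h1 b hb).2

/-- The algebra generated by nothing. -/
theorem algF_zero {F : Type*} [Field F] {n : ℕ} {P : MvPolynomial (Fin n) F → Prop}
    {G : Set (MvPolynomial (Fin n) F)}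
    (hG : ∀ g ∈ G, g ∈ (⊥ : Subalgebra F (MvPolynomial (Fin n) F))) : AlgF 0 P G := by
  refine ⟨0, fun j => j.elim0, fun j => j.elim0, fun s _ => ?_, fun g hg => ?_⟩
  · have : s = ∅ := Finset.eq_empty_of_isEmpty s
    rw [this]
    simp
  · have h1 := hG g hg
    rw [Set.range_eq_empty, Algebra.adjoin_empty]
    exact h1

/-- A local sum is in the class. -/
theorem qc_of_locSum {F : Type*} [Field F] {n k : ℕ} {P : MvPolynomial (Fin n) F → Prop}
    {f : MvPolynomial (Fin n) F} (h : LocSum k P f) : Qc 1 1 0 k P f := by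
  classical
  refine ⟨fun _ => f, X 0, fun _ => h, fun μ hμ j => ?_, algF_zero ?_, by simp⟩
  · rw [support_X, Finset.mem_singleton] at hμ
    rw [hμ, Finsupp.single_apply]
    split_ifs <;> simp
  · rintro g ⟨μ, rfl⟩
    rw [coeff_X]
    split_ifs
    · exact Subalgebra.one_mem _
    · exact Subalgebra.zero_mem _

/-- More seeds do not hurt. -/
theorem bX_mono {F : Type*} [Field F] [CharZero F] {n S R R' : ℕ} (hR : R ≤ R')
    (f : MvPolynomial (Fin n) F) (h0 : aeval (DH.B.bX F n S R) f ≠ 0) :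
    aeval (DH.B.bX F n S R') f ≠ 0 := by
  obtain ⟨k, rfl⟩ := Nat.exists_eq_add_of_le hR
  refine DH.B.hit_of_res ∅ (Nat.zero_le k) {f} (fun b hb => by
    rw [Finset.mem_singleton.1 hb]; exact h0) f (fun o ho h => ?_)
  have h1 := DH.eval_res ∅ o o f
  rw [h, map_zero] at h1
  apply ho f (Finset.mem_singleton_self f)
  rw [h1]
  congr 2
  funext i
  simp

/-- The number of translates. -/
def NN (k e j : ℕ) : ℕ := ((par k e j).2.1 + 1) ^ (par k e j).1

theorem hit_ind (t : ℕ) : ∀ k e K : ℕ, 1 ≤ e → ∃ R c : ℕ, ∀ (F : Type u) [Field F] [CharZero F]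
    (n s S : ℕ), 1 ≤ s → (c * s) ^ c ≤ S → ∀ f : MvPolynomial (Fin n) F, f ≠ 0 →
    DH.Alg K (LLev s k e t) f → aeval (DH.B.bX F n S R) f ≠ 0 := by
  induction t with
  | zero =>
    intro k e K he
    refine ⟨DH.RR 1 K e, 9 + 2 * DH.DT 1 K e, fun F _ _ n s S hs hS f h0 hf => ?_⟩
    refine DH.B.hit_alg (t := 0) (s := s) (k := K) he f h0 hf
      ((DH.ST_le hs he).trans (le_trans ?_ hS))
    show (9 * s) ^ (2 * DH.DT 1 K e) ≤ _
    calc (9 * s) ^ (2 * DH.DT 1 K e) ≤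
        ((9 + 2 * DH.DT 1 K e) * s) ^ (2 * DH.DT 1 K e) :=
          Nat.pow_le_pow_left (Nat.mul_le_mul_right s (Nat.le_add_right _ _)) _
      _ ≤ ((9 + 2 * DH.DT 1 K e) * s) ^ (9 + 2 * DH.DT 1 K e) :=
          Nat.pow_le_pow_right (Nat.mul_pos (by omega) hs) (by omega)
  | succ t ih =>
    intro k e K he
    have hj : ∀ j : ℕ, ∃ R c : ℕ, ∀ (F : Type u) [Field F] [CharZero F]
        (n s S : ℕ), 1 ≤ s → (c * s) ^ c ≤ S → ∀ f : MvPolynomial (Fin n) F, f ≠ 0 →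
        DH.Alg (NN k e j * ((par k e j).2.2.1 + (par k e j).1 * (2 * k * (NN k e j * k))))
          (LLev s k e t) f → aeval (DH.B.bX F n S R) f ≠ 0 := fun j => ih k e _ he
    choose R c hRc using hj
    refine ⟨∑ j ∈ Finset.range (K + 1), (R j + NN k e j + j),
      1 + ∑ j ∈ Finset.range (K + 1), c j * (e + 1) ^ (NN k e j + j),
      fun F _ _ n s S hs hS f h0 hf => ?_⟩
    obtain ⟨m, T, h1, h2, h3⟩ := hf
    obtain ⟨r', hr', I, hI, BB, hBB, hres⟩ := nonzero_gen (PC s k e t) (steps_PC he) T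
      (fun j => by
        obtain ⟨M, hM, hT⟩ := h1 j
        refine ⟨M, fun p hp => ?_, hT⟩
        have h4 := hM p hp
        refine ⟨?_, h4.2⟩
        have h5 := qc_of_locSum h4.1
        show Qc 1 1 0 k (LLev ((e + 1) ^ 0 * s) k e t) p
        rwa [pow_zero, one_mul]) h2 f h3 h0
    have hmem : r' ∈ Finset.range (K + 1) := Finset.mem_range.2 (Nat.lt_succ_of_le hr')
    have hc : c r' * (e + 1) ^ (NN k e r' + r') ≤
        ∑ j ∈ Finset.range (K + 1), c j * (e + 1) ^ (NN k e j + j) :=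
      Finset.single_le_sum (f := fun j => c j * (e + 1) ^ (NN k e j + j))
        (fun _ _ => Nat.zero_le _) hmem
    have hR : R r' + NN k e r' + r' ≤ ∑ j ∈ Finset.range (K + 1), (R j + NN k e j + j) :=
      Finset.single_le_sum (f := fun j => R j + NN k e j + j) (fun _ _ => Nat.zero_le _) hmem
    have hs' : 1 ≤ (e + 1) ^ NN k e r' * ((e + 1) ^ r' * s) :=
      Nat.mul_pos (Nat.pow_pos (Nat.succ_pos e)) (Nat.mul_pos (Nat.pow_pos (Nat.succ_pos e)) hs)
    have hS' : (c r' * ((e + 1) ^ NN k e r' * ((e + 1) ^ r' * s))) ^ c r' ≤ S := by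
      refine le_trans ?_ hS
      have e1 : c r' * ((e + 1) ^ NN k e r' * ((e + 1) ^ r' * s)) =
          c r' * (e + 1) ^ (NN k e r' + r') * s := by rw [pow_add]; ring
      rw [e1]
      set C := 1 + ∑ j ∈ Finset.range (K + 1), c j * (e + 1) ^ (NN k e j + j) with hC
      have h6 : c r' * (e + 1) ^ (NN k e r' + r') ≤ C := by omega
      have h7 : c r' ≤ C := le_trans (Nat.le_mul_of_pos_right _ (Nat.pow_pos (Nat.succ_pos e))) h6
      calc (c r' * (e + 1) ^ (NN k e r' + r') * s) ^ c r' ≤ (C * s) ^ c r' :=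
            Nat.pow_le_pow_left (Nat.mul_le_mul_right s h6) _
        _ ≤ (C * s) ^ C := Nat.pow_le_pow_right (Nat.mul_pos (by omega) hs) h7
    refine bX_mono hR f ?_
    refine DH.B.hit_of_res I hI.le BB (fun b hb => ?_) f hres
    exact HQ15.hit_qc (fun g hg0 hg => hRc r' F n _ S hs' hS' g hg0 hg) b (hBB b hb).1 (hBB b hb).2.1

theorem hit_top (t : ℕ) : ∀ k e : ℕ, 1 ≤ e → ∃ R c : ℕ, ∀ (F : Type u) [Field F] [CharZero F]
    (n s S : ℕ), 1 ≤ s → (c * s) ^ c ≤ S → ∀ f : MvPolynomial (Fin n) F, f ≠ 0 →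
    LocSum k (LLev s k e t) f → aeval (DH.B.bX F n S R) f ≠ 0 := by
  intro k e he
  obtain ⟨R, c, h⟩ := hit_ind.{u} t k e ((1 + 1) ^ 1 * (0 + 1 * (2 * k * ((1 + 1) ^ 1 * k)))) he
  refine ⟨R + (1 + 1) ^ 1, 1 + c * (e + 1) ^ ((1 + 1) ^ 1), fun F _ _ n s S hs hS f h0 hf => ?_⟩
  refine HQ15.hit_qc (fun g hg0 hg => h F n ((e + 1) ^ ((1 + 1) ^ 1) * s) S ?_ ?_ g hg0 hg) f h0
    (qc_of_locSum hf)
  · exact Nat.mul_pos (Nat.pow_pos (Nat.succ_pos e)) hs
  · refine le_trans ?_ hS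
    set C := 1 + c * (e + 1) ^ ((1 + 1) ^ 1) with hC
    have h6 : c * (e + 1) ^ ((1 + 1) ^ 1) ≤ C := by omega
    have h7 : c ≤ C := le_trans (Nat.le_mul_of_pos_right _ (Nat.pow_pos (Nat.succ_pos e))) h6
    calc (c * ((e + 1) ^ ((1 + 1) ^ 1) * s)) ^ c = (c * (e + 1) ^ ((1 + 1) ^ 1) * s) ^ c := by
          rw [mul_assoc]
      _ ≤ (C * s) ^ c := Nat.pow_le_pow_left (Nat.mul_le_mul_right s h6) _
      _ ≤ (C * s) ^ C := Nat.pow_le_pow_right (Nat.mul_pos (by omega) hs) h7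

end LS.Ind15
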